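import Mathlib

set_option autoImplicit false

namespace Pool.Agent.Helper94.CoD

/-- `G` is co-Dedekindian: every central automorphism (one inducing the identity on `G / Z(G)`)
maps every subgroup of `G` onto itself. -/
def CoDedekindian (G : Type) [Group G] : Prop :=
  ∀ α : G ≃* G, (∀ g : G, g⁻¹ * α g ∈ Subgroup.center G) →
    ∀ U : Subgroup G, U.map α.toMonoidHom = U

/-- The subgroup `G' G^n` generated by the commutator subgroup and all `n`-th powers. -/
def powComm (G : Type) [Group G] (n : ℕ) : Subgroup G :=
  commutator G ⊔ Subgroup.closure {g | ∃ x : G, x ^ n = g}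

end Pool.Agent.Helper94.CoD
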