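import Mathlib
import Pool.Agent.Helper77.CDReg
import Pool.Agent.Helper94.CoD.Defs

set_option autoImplicit false

/-! An exact criterion for a finite `p`-group to be co-Dedekindian. -/

open scoped commutatorElement

namespace Pool.Agent.Helper94.CoD

open Pool.Agent.Helper77.CD

section Crit

variable {G : Type} [Group G] [Finite G] {p : ℕ} [hp : Fact p.Prime]

theorem mem_zpowers_of_hom (hco : IsCoDedekindian G) (f : G →* G)
    (hf : ∀ g, f g ∈ Subgroup.center G) (hinj : ∀ g, g * f g = 1 → g = 1) (g : G) :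
    f g ∈ Subgroup.zpowers g := by
  let β : G →* G := MonoidHom.mk' (fun g => g * f g) (by
    intro a b
    have h := Subgroup.mem_center_iff.1 (hf a) b
    change a * b * f (a * b) = (a * f a) * (b * f b)
    rw [map_mul]
    calc a * b * (f a * f b) = a * (b * f a) * f b := by group
      _ = a * (f a * b) * f b := by rw [h]
      _ = _ := by group)
  have hβ : ∀ g, β g = g * f g := fun g => rfl
  have hi : Function.Injective β := by
    rw [injective_iff_map_eq_one]
    intro g hg
    exact hinj g hg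
  let α : G ≃* G := MulEquiv.ofBijective β (Finite.injective_iff_bijective.1 hi)
  have hα : ∀ g, α g = g * f g := fun g => rfl
  have h3 := hco α (by intro x; rw [hα, inv_mul_cancel_left]; exact hf x) (Subgroup.zpowers g)
  have h4 : α g ∈ Subgroup.zpowers g := by
    rw [← h3]
    exact Subgroup.mem_map_of_mem _ (Subgroup.mem_zpowers g)
  rw [hα] at h4
  have := Subgroup.mul_mem _ (Subgroup.inv_mem _ (Subgroup.mem_zpowers g)) h4
  rwa [inv_mul_cancel_left] at this

theorem mem_coatom (hG : IsPGroup p G) (hco : IsCoDedekindian G) {N : Subgroup G}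
    (hN : IsCoatom N) {z : G} (hz : z ∈ Subgroup.center G) (hzo : orderOf z = p)
    (hne : Subgroup.zpowers z ≠ ⊤) : z ∈ N := by
  by_contra hzN
  obtain ⟨N', hN', hle⟩ := (eq_top_or_exists_le_coatom (Subgroup.zpowers z)).resolve_left hne
  have hzN' : z ∈ N' := hle (Subgroup.mem_zpowers z)
  have hne' : ¬ N ≤ N' := by
    intro h
    rcases hN.le_iff.1 h with h1 | h1
    · exact hN'.1 h1
    · rw [h1] at hzN'
      exact hzN hzN'
  obtain ⟨g, hgN, hgN'⟩ := Set.not_subset.1 hne'
  have h1 := mem_zpowers_of_not_mem hG hco hN' hzN' hz hzo (g := g) hgN'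
  exact hzN ((Subgroup.zpowers_le.2 hgN) h1)

/-- A finite abelian `p`-group all of whose elements of order `p` lie in one cyclic subgroup of
order `p` is cyclic. -/
theorem isCyclic_of_unique {A : Type} [CommGroup A] [Finite A] (hA : IsPGroup p A)
    (h : ∀ a b : A, orderOf a = p → orderOf b = p → b ∈ Subgroup.zpowers a) : IsCyclic A := by
  have hp0 := hp.out.pos
  obtain ⟨a, ha⟩ := Monoid.exists_orderOf_eq_exponent (Monoid.ExponentExists.of_finite (G := A))
  by_cases hsub : Subsingleton A
  · exact isCyclic_of_subsingleton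
  have hnt : Nontrivial A := not_subsingleton_iff_nontrivial.1 hsub
  by_cases htop : Subgroup.zpowers a = ⊤
  · exact ⟨a, fun x => by
      have hx : x ∈ Subgroup.zpowers a := by rw [htop]; exact Subgroup.mem_top x
      exact hx⟩
  exfalso
  obtain ⟨t, ht⟩ := hA.exists_orderOf_eq_pow a
  have hexp : ∀ b : A, b ^ (p ^ t) = 1 := by
    intro b
    rw [← ht, ha]
    exact Monoid.pow_exponent_eq_one b
  have ht0 : t ≠ 0 := by
    rintro rfl
    obtain ⟨b, hb⟩ := exists_ne (1 : A)
    apply hb
    have := hexp b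
    rwa [pow_zero, pow_one] at this
  obtain ⟨s, rfl⟩ := Nat.exists_eq_succ_of_ne_zero ht0
  -- a nontrivial element of order `p` in the quotient
  have hQ : IsPGroup p (A ⧸ Subgroup.zpowers a) := hA.to_quotient _
  have hQn : Nontrivial (A ⧸ Subgroup.zpowers a) := by
    rw [QuotientGroup.nontrivial_iff]; exact htop
  obtain ⟨k, hk0, hk⟩ := hQ.nontrivial_iff_card.1 hQn
  obtain ⟨q, hq⟩ := exists_prime_orderOf_dvd_card' (G := A ⧸ Subgroup.zpowers a) p
    (by rw [hk]; exact dvd_pow_self p hk0.ne')
  obtain ⟨b, rfl⟩ := QuotientGroup.mk_surjective q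
  have hb1 : b ∉ Subgroup.zpowers a := by
    intro hb
    rw [(QuotientGroup.eq_one_iff b).2 hb, orderOf_one] at hq
    exact hp.out.one_lt.ne hq
  have hb2 : b ^ p ∈ Subgroup.zpowers a := by
    rw [← QuotientGroup.eq_one_iff, QuotientGroup.mk_pow, ← hq, pow_orderOf_eq_one]
  obtain ⟨i, hi⟩ := Subgroup.mem_zpowers_iff.1 hb2
  have h1 : a ^ (i * (p ^ s : ℕ)) = 1 := by
    rw [zpow_mul, zpow_natCast, hi, ← pow_mul, ← pow_succ']
    exact hexp b
  have h2 : ((p ^ (s + 1) : ℕ) : ℤ) ∣ i * (p ^ s : ℕ) := by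
    rw [← ht]; exact orderOf_dvd_iff_zpow_eq_one.2 h1
  have h3 : (p : ℤ) ∣ i := by
    rw [pow_succ', Nat.cast_mul] at h2
    exact Int.dvd_of_mul_dvd_mul_right (by exact_mod_cast (pow_pos hp0 s).ne') h2
  obtain ⟨j, rfl⟩ := h3
  have h4 : (b * (a ^ j)⁻¹) ^ p = 1 := by
    rw [mul_pow, inv_pow, ← zpow_natCast (a ^ j) p, ← zpow_mul, mul_comm j, hi, mul_inv_cancel]
  have h5 : b * (a ^ j)⁻¹ ≠ 1 := by
    intro h0
    apply hb1
    rw [mul_inv_eq_one.1 h0]
    exact Subgroup.zpow_mem_zpowers a j
  have h6 : orderOf (b * (a ^ j)⁻¹) = p := orderOf_eq_prime h4 h5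
  have h7 : orderOf (a ^ p ^ s) = p := by
    rw [orderOf_pow_of_dvd (pow_pos hp0 s).ne' (by rw [ht]; exact pow_dvd_pow p (Nat.le_succ s)),
      ht, Nat.succ_eq_add_one, pow_succ, Nat.mul_div_cancel_left _ (pow_pos hp0 s)]
  have h8 := h _ _ h7 h6
  have h9 : b * (a ^ j)⁻¹ ∈ Subgroup.zpowers a :=
    (Subgroup.zpowers_le.2 (Subgroup.pow_mem _ (Subgroup.mem_zpowers a) _)) h8
  apply hb1
  have h10 := Subgroup.mul_mem _ h9 (Subgroup.zpow_mem_zpowers a j)
  rwa [inv_mul_cancel_right] at h10

/-- The centre as a commutative group. -/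
abbrev centerComm (G : Type) [Group G] : CommGroup (Subgroup.center G) :=
  { (inferInstance : Group (Subgroup.center G)) with
    mul_comm := fun a b => Subtype.ext (Subgroup.mem_center_iff.1 b.2 a) }

theorem isCyclic_center (hG : IsPGroup p G) (hco : IsCoDedekindian G) :
    IsCyclic (Subgroup.center G) := by
  let _ := centerComm G
  apply isCyclic_of_unique (p := p) (hG.to_subgroup _)
  intro a b ha hb
  have ha' : orderOf (a : G) = p := by rw [Subgroup.orderOf_coe, ha]
  have hb' : orderOf (b : G) = p := by rw [Subgroup.orderOf_coe, hb]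
  by_cases hne : Subgroup.zpowers (a : G) = ⊤
  · have h1 : (b : G) ∈ Subgroup.zpowers (a : G) := by rw [hne]; exact Subgroup.mem_top _
    obtain ⟨k, hk⟩ := Subgroup.mem_zpowers_iff.1 h1
    exact Subgroup.mem_zpowers_iff.2 ⟨k, Subtype.ext (by push_cast; exact hk)⟩
  by_cases hne2 : Subgroup.zpowers (b : G) = ⊤
  · exfalso
    apply hne
    apply Subgroup.eq_top_of_card_eq
    have h1 : Nat.card G = p := by
      rw [← Subgroup.card_top (G := G), ← hne2, Nat.card_zpowers, hb']
    rw [h1, Nat.card_zpowers, ha']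
  -- a maximal subgroup and an element outside
  obtain ⟨N, hN, -⟩ := (eq_top_or_exists_le_coatom (Subgroup.zpowers (a : G))).resolve_left hne
  obtain ⟨x, hx⟩ : ∃ x, x ∉ N := by
    by_contra h
    push Not at h
    exact hN.1 (eq_top_iff.2 fun x _ => h x)
  have h1 := mem_zpowers_of_not_mem hG hco hN (mem_coatom hG hco hN a.2 ha' hne) a.2 ha' hx
  have h2 := mem_zpowers_of_not_mem hG hco hN (mem_coatom hG hco hN b.2 hb' hne2) b.2 hb' hx
  obtain ⟨s, hs⟩ := hG.exists_orderOf_eq_pow x
  have hs0 : s ≠ 0 := by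
    rintro rfl
    rw [pow_zero, orderOf_eq_one_iff] at hs
    rw [hs] at hx
    exact hx N.one_mem
  obtain ⟨s, rfl⟩ := Nat.exists_eq_succ_of_ne_zero hs0
  have h3 := zpowers_eq_of_mem ha' hs h1
  have h4 := zpowers_eq_of_mem hb' hs h2
  have h5 : (b : G) ∈ Subgroup.zpowers (a : G) := by
    rw [h3, ← h4]; exact Subgroup.mem_zpowers _
  obtain ⟨k, hk⟩ := Subgroup.mem_zpowers_iff.1 h5
  exact Subgroup.mem_zpowers_iff.2 ⟨k, Subtype.ext (by push_cast; exact hk)⟩

/-- If the centre is cyclic and `G` is not abelian then `g ↦ g * f g` is injective for every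
homomorphism `f` into the centre. -/
theorem inj_of_cyclic (hG : IsPGroup p G) (hZ : IsCyclic (Subgroup.center G))
    (hna : ∃ a b : G, a * b ≠ b * a) (f : G →* G) (hf : ∀ g, f g ∈ Subgroup.center G)
    (g : G) (hg : g * f g = 1) : g = 1 := by
  by_contra hg1
  have h1 : g = (f g)⁻¹ := eq_inv_of_mul_eq_one_left hg
  have hgZ : g ∈ Subgroup.center G := by rw [h1]; exact Subgroup.inv_mem _ (hf g)
  have hker : f.ker ≠ ⊥ := by
    intro hk
    have hinj : Function.Injective f := (MonoidHom.ker_eq_bot_iff f).1 hk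
    obtain ⟨a, b, hab⟩ := hna
    apply hab
    apply hinj
    rw [map_mul, map_mul]
    exact (Subgroup.mem_center_iff.1 (hf b) (f a))
  obtain ⟨z, hzk, hzZ, hzo⟩ := exists_central_order hG (N := f.ker) hker
  -- a power of `g` of order `p`
  obtain ⟨k, hk⟩ := hG.exists_orderOf_eq_pow g
  have hk0 : k ≠ 0 := by
    rintro rfl
    rw [pow_zero] at hk
    exact hg1 (orderOf_eq_one_iff.1 hk)
  obtain ⟨s, rfl⟩ := Nat.exists_eq_succ_of_ne_zero hk0
  have hp0 := hp.out.pos
  have ho : orderOf (g ^ p ^ s) = p := by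
    rw [orderOf_pow_of_dvd (pow_pos hp0 s).ne' (by rw [hk]; exact pow_dvd_pow p (Nat.le_succ s)),
      hk, Nat.succ_eq_add_one, pow_succ, Nat.mul_div_cancel_left _ (pow_pos hp0 s)]
  have hfg : f (g ^ p ^ s) = (g ^ p ^ s)⁻¹ := by
    have h2 : f g = g⁻¹ := by
      conv_rhs => rw [h1]
      rw [inv_inv]
    rw [map_pow, h2, inv_pow]
  have hne : f (g ^ p ^ s) ≠ 1 := by
    rw [hfg]
    intro h
    rw [inv_eq_one] at h
    rw [h, orderOf_one] at ho
    exact hp.out.one_lt.ne ho
  -- the centre has a unique subgroup of order `p`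
  let _ := centerComm G
  let z' : Subgroup.center G := ⟨z, hzZ⟩
  let g' : Subgroup.center G := ⟨g ^ p ^ s, Subgroup.pow_mem _ hgZ _⟩
  have hz'o : orderOf z' = p := by rw [← Subgroup.orderOf_coe]; exact hzo
  have hg'o : orderOf g' = p := by rw [← Subgroup.orderOf_coe]; exact ho
  have hcard : Nat.card (powMonoidHom p : Subgroup.center G →* Subgroup.center G).ker = p := by
    rw [IsCyclic.card_powMonoidHom_ker]
    apply Nat.gcd_eq_right
    rw [← hz'o]
    exact orderOf_dvd_natCard z'
  have hz'k : Subgroup.zpowers z' = (powMonoidHom p : Subgroup.center G →* Subgroup.center G).ker := by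
    apply Subgroup.eq_of_le_of_card_ge
    · rw [Subgroup.zpowers_le, MonoidHom.mem_ker, powMonoidHom_apply, ← hz'o, pow_orderOf_eq_one]
    · rw [hcard, Nat.card_zpowers, hz'o]
  have hg'k : g' ∈ Subgroup.zpowers z' := by
    rw [hz'k, MonoidHom.mem_ker, powMonoidHom_apply, ← hg'o, pow_orderOf_eq_one]
  obtain ⟨j, hj⟩ := Subgroup.mem_zpowers_iff.1 hg'k
  have hj' : z ^ j = g ^ p ^ s := by
    have := congrArg (fun u : Subgroup.center G => (u : G)) hj
    simpa using this
  apply hne
  rw [← hj', map_zpow, (MonoidHom.mem_ker).1 hzk, one_zpow]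

theorem exists_hom_ne (A : Type) [CommGroup A] [Finite A] (C : Type) [CommGroup C] [Finite C]
    [IsCyclic C] (h : Monoid.exponent A ∣ Nat.card C) {a : A} (ha : a ≠ 1) :
    ∃ φ : A →* C, φ a ≠ 1 := by
  have hC : HasEnoughRootsOfUnity C (Monoid.exponent A) := by
    constructor
    · obtain ⟨g, hg⟩ := IsCyclic.exists_generator (α := C)
      have hgo : orderOf g = Nat.card C := orderOf_eq_card_of_forall_mem_zpowers hg
      obtain ⟨d, hd⟩ := h
      have hd0 : d ≠ 0 := by
        rintro rfl
        rw [mul_zero] at hd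
        exact Nat.card_pos.ne' hd
      refine ⟨g ^ d, ?_⟩
      have h1 : orderOf (g ^ d) = Monoid.exponent A := by
        rw [orderOf_pow_of_dvd hd0 (by rw [hgo, hd]; exact Dvd.intro_left _ rfl), hgo, hd,
          Nat.mul_div_cancel _ (Nat.pos_of_ne_zero hd0)]
      rw [← h1]
      exact IsPrimitiveRoot.orderOf _
    · have h1 : IsCyclic Cˣ := isCyclic_of_injective (toUnits (G := C)).symm.toMonoidHom
        (toUnits (G := C)).symm.injective
      infer_instance
  obtain ⟨φ, hφ⟩ := CommGroup.exists_apply_ne_one_of_hasEnoughRootsOfUnity A C ha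
  refine ⟨(toUnits (G := C)).symm.toMonoidHom.comp φ, fun h => hφ ?_⟩
  exact (MulEquiv.map_eq_one_iff (toUnits (G := C)).symm).1 h

omit [Finite G] in
theorem commutator_le_powComm (n : ℕ) : commutator G ≤ powComm G n := le_sup_left

omit [Finite G] in
theorem pow_mem_powComm (n : ℕ) (x : G) : x ^ n ∈ powComm G n :=
  (le_sup_right : Subgroup.closure {g | ∃ x : G, x ^ n = g} ≤ powComm G n)
    (Subgroup.subset_closure ⟨x, rfl⟩)

omit [Finite G] in
theorem powComm_le_ker {C : Type} [Group C] (hC : ∀ a b : C, a * b = b * a) {n : ℕ}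
    (hn : ∀ c : C, c ^ n = 1) (f : G →* C) : powComm G n ≤ f.ker := by
  refine sup_le ?_ ?_
  · rw [commutator_def, Subgroup.commutator_le]
    intro a _ b _
    rw [MonoidHom.mem_ker, map_commutatorElement, commutatorElement_eq_one_iff_mul_comm]
    exact hC _ _
  · rw [Subgroup.closure_le]
    rintro _ ⟨x, rfl⟩
    change f (x ^ n) = 1
    rw [map_pow, hn]

theorem crit_mp (hG : IsPGroup p G) (hco : IsCoDedekindian G) (hna : ∃ a b : G, a * b ≠ b * a)
    (x : G) : x ^ Nat.card (Subgroup.zpowers x ⊓ Subgroup.center G : Subgroup G) ∈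
      powComm G (Nat.card (Subgroup.center G)) := by
  have hZ := isCyclic_center hG hco
  by_contra hx
  set c := Nat.card (Subgroup.zpowers x ⊓ Subgroup.center G : Subgroup G) with hc
  set n := Nat.card (Subgroup.center G) with hn
  have hR : (powComm G n).Normal := Subgroup.Normal.of_commutator_le G (commutator_le_powComm n)
  let _ := centerComm G
  let _ : CommGroup (G ⧸ powComm G n) :=
    { (inferInstance : Group (G ⧸ powComm G n)) with
      mul_comm := by
        intro a b
        obtain ⟨a, rfl⟩ := QuotientGroup.mk'_surjective _ a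
        obtain ⟨b, rfl⟩ := QuotientGroup.mk'_surjective _ b
        have h1 : QuotientGroup.mk' (powComm G n) ⁅a, b⁆ = 1 :=
          (QuotientGroup.eq_one_iff _).2 (commutator_le_powComm n
            (Subgroup.commutator_mem_commutator (Subgroup.mem_top a) (Subgroup.mem_top b)))
        rw [map_commutatorElement, commutatorElement_eq_one_iff_mul_comm] at h1
        exact h1 }
  have hexp : Monoid.exponent (G ⧸ powComm G n) ∣ Nat.card (Subgroup.center G) := by
    apply Monoid.exponent_dvd_of_forall_pow_eq_one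
    intro a
    obtain ⟨a, rfl⟩ := QuotientGroup.mk'_surjective _ a
    rw [← map_pow]
    exact (QuotientGroup.eq_one_iff _).2 (pow_mem_powComm n a)
  have hne : QuotientGroup.mk' (powComm G n) (x ^ c) ≠ 1 := fun h =>
    hx ((QuotientGroup.eq_one_iff _).1 h)
  obtain ⟨φ, hφ⟩ := exists_hom_ne (G ⧸ powComm G n) (Subgroup.center G) hexp hne
  let f : G →* G := (Subgroup.subtype (Subgroup.center G)).comp
    (φ.comp (QuotientGroup.mk' (powComm G n)))
  have hf : ∀ g, f g ∈ Subgroup.center G := fun g =>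
    (φ (QuotientGroup.mk' (powComm G n) g)).2
  have h1 := mem_zpowers_of_hom hco f hf (inj_of_cyclic hG hZ hna f hf) x
  have h2 : (⟨f x, h1, hf x⟩ : (Subgroup.zpowers x ⊓ Subgroup.center G : Subgroup G)) ^ c = 1 :=
    pow_card_eq_one'
  have h3 : f x ^ c = 1 := congrArg Subtype.val h2
  apply hφ
  apply Subtype.ext
  rw [map_pow, map_pow]
  exact h3

theorem crit_mpr (hZ : IsCyclic (Subgroup.center G))
    (h : ∀ x : G, x ^ Nat.card (Subgroup.zpowers x ⊓ Subgroup.center G : Subgroup G) ∈
      powComm G (Nat.card (Subgroup.center G))) : IsCoDedekindian G := by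
  intro α hα U
  let _ := centerComm G
  let f : G →* Subgroup.center G :=
    MonoidHom.mk' (fun g => ⟨g⁻¹ * α g, hα g⟩) (by
      intro a b
      apply Subtype.ext
      change (a * b)⁻¹ * α (a * b) = (a⁻¹ * α a) * (b⁻¹ * α b)
      have hc := Subgroup.mem_center_iff.1 (hα a) b⁻¹
      calc (a * b)⁻¹ * α (a * b) = b⁻¹ * (a⁻¹ * α a) * α b := by
            rw [map_mul, mul_inv_rev]; group
        _ = (a⁻¹ * α a) * b⁻¹ * α b := by rw [hc]
        _ = _ := by rw [mul_assoc])
  have hker : powComm G (Nat.card (Subgroup.center G)) ≤ f.ker :=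
    powComm_le_ker (fun a b => mul_comm a b) (fun c => pow_card_eq_one') f
  have hmem : ∀ x : G, (f x : G) ∈ Subgroup.zpowers x := by
    intro x
    set c := Nat.card (Subgroup.zpowers x ⊓ Subgroup.center G : Subgroup G) with hc
    have h1 : (f x) ^ c = 1 := by
      rw [← map_pow]
      exact (MonoidHom.mem_ker).1 (hker (h x))
    let U' : Subgroup (Subgroup.center G) := (Subgroup.zpowers x).subgroupOf (Subgroup.center G)
    have hU' : Nat.card U' = c := by
      rw [hc]
      have e : U' ≃ (Subgroup.zpowers x ⊓ Subgroup.center G : Subgroup G) :=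
        { toFun := fun u => ⟨((u : Subgroup.center G) : G), u.2, (u : Subgroup.center G).2⟩
          invFun := fun u => ⟨⟨u, u.2.2⟩, u.2.1⟩
          left_inv := fun u => rfl
          right_inv := fun u => rfl }
      exact Nat.card_congr e
    have hcd : c ∣ Nat.card (Subgroup.center G) := by
      rw [← hU']; exact Subgroup.card_subgroup_dvd_card U'
    have hcard : Nat.card (powMonoidHom c : Subgroup.center G →* Subgroup.center G).ker = c := by
      rw [IsCyclic.card_powMonoidHom_ker]
      exact Nat.gcd_eq_right hcd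
    have hU'k : U' = (powMonoidHom c : Subgroup.center G →* Subgroup.center G).ker := by
      apply Subgroup.eq_of_le_of_card_ge
      · intro u hu
        rw [MonoidHom.mem_ker, powMonoidHom_apply]
        have h2 : (⟨u, hu⟩ : U') ^ (Nat.card U') = 1 := pow_card_eq_one'
        rw [hU'] at h2
        exact congrArg Subtype.val h2
      · rw [hcard, hU']
    have h3 : f x ∈ U' := by
      rw [hU'k, MonoidHom.mem_ker, powMonoidHom_apply]
      exact h1
    exact h3
  have hle : U.map α.toMonoidHom ≤ U := by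
    rintro _ ⟨g, hg, rfl⟩
    have h1 : α g = g * (f g) := by
      change _ = g * (g⁻¹ * α g)
      rw [mul_inv_cancel_left]
    change α g ∈ U
    rw [h1]
    exact U.mul_mem hg ((Subgroup.zpowers_le.2 hg) (hmem g))
  apply Subgroup.eq_of_le_of_card_ge hle
  rw [Subgroup.card_map_of_injective α.injective]

/-- The criterion. -/
theorem criterion (hG : IsPGroup p G) : IsCoDedekindian G ↔ IsCyclic G ∨
    ((∃ a b : G, a * b ≠ b * a) ∧ IsCyclic (Subgroup.center G) ∧
      ∀ x : G, x ^ Nat.card (Subgroup.zpowers x ⊓ Subgroup.center G : Subgroup G) ∈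
        powComm G (Nat.card (Subgroup.center G))) := by
  constructor
  · intro hco
    by_cases hna : ∃ a b : G, a * b ≠ b * a
    · exact Or.inr ⟨hna, isCyclic_center hG hco, crit_mp hG hco hna⟩
    · left
      push Not at hna
      have hZ := isCyclic_center hG hco
      refine isCyclic_of_surjective (Subgroup.subtype (Subgroup.center G)) ?_
      intro g
      exact ⟨⟨g, Subgroup.mem_center_iff.2 fun h => hna h g⟩, rfl⟩
  · rintro (h | ⟨-, hZ, h⟩)
    · exact isCoDedekindian_of_isCyclic h
    · exact crit_mpr hZ h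

end Crit

end Pool.Agent.Helper94.CoD
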