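import Mathlib

set_option autoImplicit false

/-! Skew power series over a field `K` of characteristic `p` (multiplication rule
`t * a = a ^ p * t`), realised inside the power series ring over the ring of additive
endomorphisms of `K`, and the filtration of the group of series with constant term `1`. -/

open scoped commutatorElement
open Finset

namespace Pool.Agent.Helper94.CoD

section Sk

variable (p : ℕ) [hp : Fact p.Prime] (K : Type) [Field K] [CharP K p]

/-- The additive operator `x ↦ γ * x ^ (p ^ n)`. -/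
def el (γ : K) (n : ℕ) : AddMonoid.End K where
  toFun x := γ * x ^ (p ^ n)
  map_zero' := by
    rw [zero_pow (pow_ne_zero _ hp.out.ne_zero), mul_zero]
  map_add' x y := by rw [add_pow_char_pow, mul_add]

variable {K}

theorem el_apply (γ : K) (n : ℕ) (x : K) : el p K γ n x = γ * x ^ (p ^ n) := rfl

theorem el_mul (γ δ : K) (a b : ℕ) :
    el p K γ a * el p K δ b = el p K (γ * δ ^ (p ^ a)) (a + b) := by
  ext x
  change γ * (δ * x ^ (p ^ b)) ^ (p ^ a) = γ * δ ^ (p ^ a) * x ^ (p ^ (a + b))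
  rw [mul_pow, ← pow_mul, ← pow_add, add_comm b a, mul_assoc]

theorem el_add (γ δ : K) (n : ℕ) : el p K γ n + el p K δ n = el p K (γ + δ) n := by
  ext x
  change γ * x ^ (p ^ n) + δ * x ^ (p ^ n) = (γ + δ) * x ^ (p ^ n)
  ring

theorem el_neg (γ : K) (n : ℕ) : - el p K γ n = el p K (-γ) n := by
  ext x
  change -(γ * x ^ (p ^ n)) = (-γ) * x ^ (p ^ n)
  ring

theorem el_sub (γ δ : K) (n : ℕ) : el p K γ n - el p K δ n = el p K (γ - δ) n := by
  rw [sub_eq_add_neg, el_neg, el_add, sub_eq_add_neg]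

theorem el_zero (n : ℕ) : el p K (0 : K) n = 0 := by
  ext x
  change (0 : K) * x ^ (p ^ n) = 0
  ring

theorem el_one : el p K (1 : K) 0 = 1 := by
  ext x
  change (1 : K) * x ^ (p ^ 0) = x
  simp

theorem el_apply_one (γ : K) (n : ℕ) : el p K γ n 1 = γ := by
  rw [el_apply, one_pow, mul_one]

theorem el_sum {ι : Type} (s : Finset ι) (g : ι → K) (n : ℕ) :
    ∑ i ∈ s, el p K (g i) n = el p K (∑ i ∈ s, g i) n := by
  classical
  induction s using Finset.induction_on with
  | empty => simp [el_zero]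
  | insert i s hi ih => rw [Finset.sum_insert hi, Finset.sum_insert hi, ih, el_add]

variable (K) in
/-- The ambient ring. -/
abbrev Rg := PowerSeries (AddMonoid.End K)

/-- The `n`-th coefficient of a skew power series, as an element of `K`. -/
noncomputable def lcf (n : ℕ) (f : Rg K) : K := (PowerSeries.coeff n f) 1

/-- Skew power series: the `n`-th coefficient is `x ↦ γ * x ^ (p ^ n)`. -/
def NF (f : Rg K) : Prop := ∀ n, PowerSeries.coeff n f = el p K (lcf n f) n

variable {p}

theorem NF.mk' {f : Rg K} (h : ∀ n, ∃ γ, PowerSeries.coeff n f = el p K γ n) : NF p f := by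
  intro n
  obtain ⟨γ, hγ⟩ := h n
  rw [hγ, lcf, hγ, el_apply_one]

theorem NF.one : NF p (1 : Rg K) := by
  refine NF.mk' fun n => ?_
  rw [PowerSeries.coeff_one]
  split_ifs with h
  · subst h; exact ⟨1, (el_one p).symm⟩
  · exact ⟨0, (el_zero p n).symm⟩

theorem NF.mul {f g : Rg K} (hf : NF p f) (hg : NF p g) : NF p (f * g) := by
  refine NF.mk' fun n => ?_
  rw [PowerSeries.coeff_mul]
  refine ⟨∑ x ∈ antidiagonal n, lcf x.1 f * (lcf x.2 g) ^ (p ^ x.1), ?_⟩
  rw [← el_sum]
  refine Finset.sum_congr rfl fun x hx => ?_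
  rw [hf x.1, hg x.2, el_mul, mem_antidiagonal.1 hx]

theorem NF.inv {f g : Rg K} (hf : NF p f) (h0 : PowerSeries.coeff 0 f = 1) (h : f * g = 1) :
    NF p g := by
  refine NF.mk' fun n => ?_
  induction n using Nat.strong_induction_on with
  | _ n ih =>
    have h1 : PowerSeries.coeff n (f * g) = PowerSeries.coeff n (1 : Rg K) := by rw [h]
    rw [PowerSeries.coeff_mul, Finset.Nat.sum_antidiagonal_eq_sum_range_succ_mk,
      Finset.sum_range_succ', h0, one_mul, Nat.sub_zero] at h1
    have h2 : ∃ γ, ∑ k ∈ Finset.range n, (PowerSeries.coeff (k + 1) f) *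
        (PowerSeries.coeff (n - (k + 1)) g) = el p K γ n := by
      choose! c hc using ih
      refine ⟨∑ k ∈ Finset.range n, lcf (k + 1) f * (c (n - (k + 1))) ^ (p ^ (k + 1)), ?_⟩
      rw [← el_sum]
      refine Finset.sum_congr rfl fun k hk => ?_
      have hk' : k < n := Finset.mem_range.1 hk
      rw [hf (k + 1), hc (n - (k + 1)) (by omega), el_mul]
      congr 1
      omega
    obtain ⟨γ, hγ⟩ := h2
    obtain ⟨δ, hδ⟩ : ∃ δ, PowerSeries.coeff n (1 : Rg K) = el p K δ n := ⟨_, NF.one n⟩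
    refine ⟨δ - γ, ?_⟩
    rw [← el_sub, ← hγ, ← hδ]
    exact eq_sub_of_add_eq' h1

/-! ### Filtration on the ring -/

variable (K) in
/-- Series of order at least `k`. -/
def Jk (k : ℕ) : AddSubgroup (Rg K) where
  carrier := {f | ∀ n, n < k → PowerSeries.coeff n f = 0}
  zero_mem' := fun n _ => by simp
  add_mem' := fun ha hb n hn => by rw [map_add, ha n hn, hb n hn, add_zero]
  neg_mem' := fun ha n hn => by rw [map_neg, ha n hn, neg_zero]

theorem mem_Jk {k : ℕ} {f : Rg K} : f ∈ Jk K k ↔ ∀ n, n < k → PowerSeries.coeff n f = 0 :=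
  Iff.rfl

theorem Jk_mono {k l : ℕ} (h : k ≤ l) : Jk K l ≤ Jk K k :=
  fun _ hf n hn => hf n (lt_of_lt_of_le hn h)

theorem Jk_zero (f : Rg K) : f ∈ Jk K 0 := fun n hn => absurd hn (Nat.not_lt_zero n)

theorem Jk_mul {a b : ℕ} {f g : Rg K} (hf : f ∈ Jk K a) (hg : g ∈ Jk K b) :
    f * g ∈ Jk K (a + b) := by
  intro n hn
  rw [PowerSeries.coeff_mul]
  refine Finset.sum_eq_zero fun x hx => ?_
  have hx' := mem_antidiagonal.1 hx
  rcases lt_or_ge x.1 a with h | h
  · rw [hf _ h, zero_mul]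
  · rw [hg _ (by omega), mul_zero]

theorem coeff_mul_Jk {a b : ℕ} {f g : Rg K} (hf : f ∈ Jk K a) (hg : g ∈ Jk K b) :
    PowerSeries.coeff (a + b) (f * g) = PowerSeries.coeff a f * PowerSeries.coeff b g := by
  rw [PowerSeries.coeff_mul]
  refine Finset.sum_eq_single (a, b) (fun x hx hne => ?_) (fun h => ?_)
  · have hx' := mem_antidiagonal.1 hx
    rcases lt_trichotomy x.1 a with h | h | h
    · rw [hf _ h, zero_mul]
    · exact absurd (Prod.ext h (by simp; omega)) hne
    · rw [hg _ (by omega), mul_zero]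
  · exact absurd (mem_antidiagonal.2 rfl : (a, b) ∈ antidiagonal (a + b)) h

theorem Jk_mul_left {a : ℕ} (f : Rg K) {g : Rg K} (hg : g ∈ Jk K a) : f * g ∈ Jk K a := by
  have := Jk_mul (Jk_zero f) hg
  rwa [zero_add] at this

theorem Jk_mul_right {a : ℕ} {f : Rg K} (hf : f ∈ Jk K a) (g : Rg K) : f * g ∈ Jk K a :=
  Jk_mul hf (Jk_zero g)

theorem Jk_pow {a : ℕ} {f : Rg K} (hf : f ∈ Jk K a) (n : ℕ) : f ^ n ∈ Jk K (a * n) := by
  induction n with
  | zero => rw [mul_zero]; exact Jk_zero _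
  | succ n ih => rw [pow_succ, mul_add, mul_one]; exact Jk_mul ih hf

theorem coeff_pow_Jk {f : Rg K} (hf : f ∈ Jk K 1) (n : ℕ) :
    PowerSeries.coeff n (f ^ n) = (PowerSeries.coeff 1 f) ^ n := by
  induction n with
  | zero => simp [PowerSeries.coeff_one]
  | succ n ih =>
    have h := Jk_pow hf n
    rw [one_mul] at h
    rw [pow_succ, coeff_mul_Jk h hf, ih, pow_succ]

theorem el_pow (γ : K) (n : ℕ) :
    (el p K γ 1) ^ n = el p K (∏ i ∈ Finset.range n, γ ^ (p ^ i)) n := by
  induction n with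
  | zero => simp [el_one]
  | succ n ih => rw [pow_succ, ih, el_mul, Finset.prod_range_succ]

instance charP_end : CharP (AddMonoid.End K) p := by
  refine ⟨fun n => ?_⟩
  rw [← CharP.cast_eq_zero_iff K p n]
  constructor
  · intro h
    have h1 : ((n : AddMonoid.End K)) (1 : K) = 0 := by rw [h]; rfl
    have h2 : ((n : AddMonoid.End K)) (1 : K) = n • (1 : K) := AddMonoid.End.natCast_apply n 1
    rw [h2, nsmul_eq_mul, mul_one] at h1
    exact h1
  · intro h
    ext x
    have h2 : ((n : AddMonoid.End K)) x = n • x := AddMonoid.End.natCast_apply n x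
    rw [h2, nsmul_eq_mul, h, zero_mul]
    rfl

instance charP_Rg : CharP (Rg K) p :=
  charP_of_injective_ringHom (f := (PowerSeries.C : AddMonoid.End K →+* Rg K))
    PowerSeries.C_injective p

/-! ### The group of skew series with constant term one -/

variable (p K) in
/-- Skew series with constant term `1`, a group. -/
def Gr : Subgroup (Rg K)ˣ where
  carrier := {u | NF p (u : Rg K) ∧ PowerSeries.coeff 0 (u : Rg K) = 1}
  one_mem' := ⟨NF.one, by simp⟩
  mul_mem' := fun {a b} ha hb => ⟨NF.mul ha.1 hb.1, by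
    rw [Units.val_mul, PowerSeries.coeff_mul]
    simp [ha.2, hb.2]⟩
  inv_mem' := fun {a} ha => by
    have h1 : (a : Rg K) * ((a⁻¹ : (Rg K)ˣ) : Rg K) = 1 := Units.mul_inv a
    refine ⟨NF.inv ha.1 ha.2 h1, ?_⟩
    have h2 : PowerSeries.coeff 0 ((a : Rg K) * ((a⁻¹ : (Rg K)ˣ) : Rg K))
        = PowerSeries.coeff 0 (1 : Rg K) := by rw [h1]
    rw [PowerSeries.coeff_mul] at h2
    simpa [ha.2] using h2

/-- The underlying series. -/
def val (u : Gr p K) : Rg K := ((u : (Rg K)ˣ) : Rg K)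

theorem val_mul (u v : Gr p K) : val (u * v) = val u * val v := rfl

theorem val_one : val (1 : Gr p K) = 1 := rfl

theorem val_pow (u : Gr p K) (n : ℕ) : val (u ^ n) = val u ^ n := by
  induction n with
  | zero => rw [pow_zero, pow_zero, val_one]
  | succ n ih => rw [pow_succ, pow_succ, val_mul, ih]

theorem val_inj {u v : Gr p K} (h : val u = val v) : u = v :=
  Subtype.ext (Units.ext h)

theorem val_mul_inv (u : Gr p K) : val u * val u⁻¹ = 1 := by
  rw [← val_mul, mul_inv_cancel, val_one]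

theorem NF_val (u : Gr p K) : NF p (val u) := u.2.1

theorem coeff_zero_val (u : Gr p K) : PowerSeries.coeff 0 (val u) = 1 := u.2.2

theorem val_sub_one_mem (u : Gr p K) : val u - 1 ∈ Jk K 1 := by
  intro n hn
  have : n = 0 := by omega
  subst this
  rw [map_sub, coeff_zero_val]
  simp

variable (p K) in
/-- The congruence subgroups. -/
def Gam (s : ℕ) : Subgroup (Gr p K) where
  carrier := {u | val u - 1 ∈ Jk K s}
  one_mem' := by
    change val (1 : Gr p K) - 1 ∈ Jk K s
    rw [val_one, sub_self]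
    exact zero_mem _
  mul_mem' := fun {a b} ha hb => by
    change val (a * b) - 1 ∈ Jk K s
    have : val (a * b) - 1 = (val a - 1) * val b + (val b - 1) := by
      rw [val_mul, sub_mul, one_mul]; abel
    rw [this]
    exact add_mem (Jk_mul_right ha _) hb
  inv_mem' := fun {a} ha => by
    change val a⁻¹ - 1 ∈ Jk K s
    have : val a⁻¹ - 1 = -((val a - 1) * val a⁻¹) := by
      rw [sub_mul, val_mul_inv, one_mul, neg_sub]
    rw [this]
    exact neg_mem (Jk_mul_right ha _)

theorem mem_Gam {s : ℕ} {u : Gr p K} : u ∈ Gam p K s ↔ val u - 1 ∈ Jk K s := Iff.rfl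

theorem Gam_mono {s t : ℕ} (h : s ≤ t) : Gam p K t ≤ Gam p K s := fun _ hu => Jk_mono h hu

theorem mem_Gam_one (u : Gr p K) : u ∈ Gam p K 1 := val_sub_one_mem u

/-- The `s`-th leading coefficient. -/
noncomputable def ld (s : ℕ) (u : Gr p K) : K := lcf s (val u)

theorem coeff_val_sub_one {s : ℕ} (hs : 1 ≤ s) (u : Gr p K) :
    PowerSeries.coeff s (val u - 1) = el p K (ld s u) s := by
  rw [map_sub, PowerSeries.coeff_one, if_neg (by omega), sub_zero]
  exact NF_val u s

theorem el_eq_zero {γ : K} {n : ℕ} : el p K γ n = 0 ↔ γ = 0 := by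
  constructor
  · intro h
    have := el_apply_one p γ n
    rw [h] at this
    exact this.symm
  · rintro rfl
    exact el_zero p n

theorem el_injective {γ δ : K} {n : ℕ} (h : el p K γ n = el p K δ n) : γ = δ := by
  rw [← el_apply_one p γ n, h, el_apply_one]

theorem mem_Gam_succ {s : ℕ} (hs : 1 ≤ s) {u : Gr p K} (hu : u ∈ Gam p K s) :
    u ∈ Gam p K (s + 1) ↔ ld s u = 0 := by
  rw [← el_eq_zero (p := p) (n := s), ← coeff_val_sub_one hs]
  constructor
  · intro h
    exact h s (by omega)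
  · intro h n hn
    rcases Nat.lt_succ_iff_lt_or_eq.1 hn with h1 | h1
    · exact hu n h1
    · rw [h1]; exact h

theorem ld_mul {s : ℕ} (hs : 1 ≤ s) {u v : Gr p K} (hu : u ∈ Gam p K s) (hv : v ∈ Gam p K s) :
    ld s (u * v) = ld s u + ld s v := by
  apply el_injective (p := p) (n := s)
  rw [← el_add, ← coeff_val_sub_one hs, ← coeff_val_sub_one hs, ← coeff_val_sub_one hs]
  have h : val (u * v) - 1 = (val u - 1) + (val v - 1) + (val u - 1) * (val v - 1) := by
    rw [val_mul]; simp only [sub_mul, mul_sub, one_mul, mul_one]; abel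
  rw [h, map_add, map_add, Jk_mul hu hv s (by omega), add_zero]

theorem ld_one {s : ℕ} (hs : 1 ≤ s) : ld s (1 : Gr p K) = 0 := by
  apply el_injective (p := p) (n := s)
  rw [← coeff_val_sub_one hs, val_one, sub_self, map_zero, el_zero]

theorem ld_inv {s : ℕ} (hs : 1 ≤ s) {u : Gr p K} (hu : u ∈ Gam p K s) :
    ld s u⁻¹ = - ld s u := by
  have h := ld_mul hs hu (inv_mem hu)
  rw [mul_inv_cancel, ld_one hs] at h
  exact eq_neg_of_add_eq_zero_right h.symm

theorem commutator_sub_one (a b : Gr p K) :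
    val ⁅a, b⁆ - 1 = ((val a - 1) * (val b - 1) - (val b - 1) * (val a - 1)) *
      (val a⁻¹ * val b⁻¹) := by
  have h1 : val ⁅a, b⁆ = val a * val b * (val a⁻¹ * val b⁻¹) := by
    rw [commutatorElement_def, val_mul, val_mul, val_mul, mul_assoc]
  have h2 : (1 : Rg K) = val b * val a * (val a⁻¹ * val b⁻¹) := by
    rw [mul_assoc, ← mul_assoc (val a), val_mul_inv, one_mul, val_mul_inv]
  have h3 : val ⁅a, b⁆ - 1 = (val a * val b - val b * val a) * (val a⁻¹ * val b⁻¹) := by
    rw [h1, sub_mul, ← h2]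
  rw [h3]
  congr 1
  simp only [sub_mul, mul_sub, one_mul, mul_one]; abel

theorem commutator_mem {r s : ℕ} {a b : Gr p K} (ha : a ∈ Gam p K s) (hb : b ∈ Gam p K r) :
    ⁅a, b⁆ ∈ Gam p K (s + r) := by
  rw [mem_Gam, commutator_sub_one]
  refine Jk_mul_right (sub_mem (Jk_mul ha hb) ?_) _
  rw [add_comm]
  exact Jk_mul hb ha

theorem ld_commutator {r s : ℕ} (hs : 1 ≤ s) (hr : 1 ≤ r) {a b : Gr p K}
    (ha : a ∈ Gam p K s) (hb : b ∈ Gam p K r) :
    ld (s + r) ⁅a, b⁆ = ld s a * (ld r b) ^ (p ^ s) - ld r b * (ld s a) ^ (p ^ r) := by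
  apply el_injective (p := p) (n := s + r)
  rw [← coeff_val_sub_one (by omega), commutator_sub_one, ← el_sub, ← el_mul]
  have h1 : (val a - 1) * (val b - 1) - (val b - 1) * (val a - 1) ∈ Jk K (s + r) := by
    refine sub_mem (Jk_mul ha hb) ?_
    rw [add_comm]
    exact Jk_mul hb ha
  have h2 := coeff_mul_Jk h1 (Jk_zero (val a⁻¹ * val b⁻¹))
  rw [add_zero] at h2
  have h3 : PowerSeries.coeff 0 (val a⁻¹ * val b⁻¹) = 1 := by
    rw [← val_mul]; exact coeff_zero_val _
  rw [h2, h3, mul_one, map_sub, coeff_mul_Jk ha hb, coeff_val_sub_one hs, coeff_val_sub_one hr]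
  congr 1
  have h4 := coeff_mul_Jk hb ha
  rw [coeff_val_sub_one hs, coeff_val_sub_one hr, el_mul, add_comm r s] at h4
  exact h4

theorem val_pow_sub_one (u : Gr p K) (k : ℕ) : val (u ^ (p ^ k)) - 1 = (val u - 1) ^ (p ^ k) := by
  rw [sub_pow_char_pow_of_commute _ _ (Commute.one_right _), one_pow, val_pow]

theorem pow_mem_Gam {s : ℕ} {u : Gr p K} (hu : u ∈ Gam p K s) (k : ℕ) :
    u ^ (p ^ k) ∈ Gam p K (s * p ^ k) := by
  rw [mem_Gam, val_pow_sub_one]
  exact Jk_pow hu _

theorem ld_pow (u : Gr p K) (k : ℕ) :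
    ld (p ^ k) (u ^ (p ^ k)) = ∏ i ∈ Finset.range (p ^ k), (ld 1 u) ^ (p ^ i) := by
  have hk : 1 ≤ p ^ k := Nat.one_le_pow _ _ hp.out.pos
  apply el_injective (p := p) (n := p ^ k)
  rw [← coeff_val_sub_one hk, val_pow_sub_one, coeff_pow_Jk (val_sub_one_mem u),
    coeff_val_sub_one le_rfl, el_pow]

theorem exists_ld_one (β : K) : ∃ u : Gr p K, ld 1 u = β := by
  let f : Rg K := PowerSeries.mk fun n => if n = 0 then 1 else if n = 1 then el p K β 1 else 0
  have hf : ∀ n, PowerSeries.coeff n f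
      = if n = 0 then 1 else if n = 1 then el p K β 1 else 0 := fun n => PowerSeries.coeff_mk _ _
  have h0 : PowerSeries.constantCoeff f = ((1 : (AddMonoid.End K)ˣ) : AddMonoid.End K) := by
    rw [← PowerSeries.coeff_zero_eq_constantCoeff_apply, hf]; simp
  refine ⟨⟨⟨f, PowerSeries.invOfUnit f 1, PowerSeries.mul_invOfUnit f 1 h0,
    PowerSeries.invOfUnit_mul f 1 h0⟩, ?_, ?_⟩, ?_⟩
  · refine NF.mk' fun n => ?_
    change ∃ γ, PowerSeries.coeff n f = el p K γ n
    rw [hf]
    split_ifs with h1 h2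
    · subst h1; exact ⟨1, (el_one p).symm⟩
    · subst h2; exact ⟨β, rfl⟩
    · exact ⟨0, (el_zero p n).symm⟩
  · change PowerSeries.coeff 0 f = 1
    rw [hf, if_pos rfl]
  · change (PowerSeries.coeff 1 f) 1 = β
    rw [hf, if_neg (by norm_num), if_pos rfl, el_apply_one]

end Sk

end Pool.Agent.Helper94.CoD
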