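import Mathlib
import Pool.Agent.Helper94.CoD.Sk

set_option autoImplicit false

open scoped commutatorElement
open Finset

namespace Pool.Agent.Helper94.CoD

section FF

variable {p : ℕ} [hp : Fact p.Prime] {K : Type} [Field K] [CharP K p] [Fintype K]

omit hp [CharP K p] in
theorem pow_card_N {N : ℕ} (hN : Fintype.card K = p ^ N) (x : K) : x ^ (p ^ N) = x := by
  rw [← hN]; exact FiniteField.pow_card x

/-- The norm to the prime field. -/
def nu (p N : ℕ) (x : K) : K := ∏ i ∈ Finset.range N, x ^ (p ^ i)

omit hp [CharP K p] [Fintype K] in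
theorem nu_one (N : ℕ) : nu p N (1 : K) = 1 := by simp [nu]

omit hp [CharP K p] [Fintype K] in
theorem nu_ne_zero {N : ℕ} {x : K} (hx : x ≠ 0) : nu p N x ≠ 0 :=
  Finset.prod_ne_zero_iff.2 fun _ _ => pow_ne_zero _ hx

theorem nu_pow {N : ℕ} (hN : Fintype.card K = p ^ N) {x : K} (hx : x ≠ 0) :
    (nu p N x) ^ p = nu p N x := by
  have h1 : (nu p N x) ^ p = ∏ i ∈ Finset.range N, x ^ (p ^ (i + 1)) := by
    rw [nu, ← Finset.prod_pow]
    refine Finset.prod_congr rfl fun i _ => ?_
    rw [← pow_mul, ← pow_succ]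
  have h2 := Finset.prod_range_succ (fun i => x ^ (p ^ i)) N
  have h3 := Finset.prod_range_succ' (fun i => x ^ (p ^ i)) N
  rw [h2, pow_card_N hN, pow_zero, pow_one] at h3
  rw [h1]
  exact (mul_right_cancel₀ hx h3).symm

omit [Fintype K] in
theorem cast_emod_toNat (n : ℤ) : (((n % p).toNat : ℕ) : K) = (n : K) := by
  have h0 : (0 : ℤ) ≤ n % p := Int.emod_nonneg _ (by exact_mod_cast hp.out.ne_zero)
  have h1 : (((n % p).toNat : ℤ) : K) = ((n % p : ℤ) : K) := by rw [Int.toNat_of_nonneg h0]
  have h2 : (n : K) = ((n % p : ℤ) : K) + ((p : ℤ) : K) * ((n / p : ℤ) : K) := by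
    have h3 : n = n % p + p * (n / p) := (Int.emod_add_mul_ediv n p).symm
    exact_mod_cast congrArg (fun z : ℤ => (z : K)) h3
  have h4 : ((p : ℤ) : K) = 0 := by
    rw [Int.cast_natCast]; exact CharP.cast_eq_zero K p
  rw [h4, zero_mul, add_zero] at h2
  rw [h2, ← h1]
  norm_cast

theorem exists_nat_nu {N : ℕ} (hN : Fintype.card K = p ^ N) {x : K} (hx : x ≠ 0) :
    ∃ j : ℕ, (j : K) = nu p N x ∧ ¬ p ∣ j := by
  have h := (Subfield.mem_bot_iff_pow_eq_self K p).2 (nu_pow hN hx)
  obtain ⟨n, hn⟩ := (mem_bot_iff_intCast p K).1 h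
  refine ⟨(n % p).toNat, ?_, ?_⟩
  · rw [← hn, cast_emod_toNat]
  · intro hd
    have h1 : (((n % p).toNat : ℕ) : K) = 0 := (CharP.cast_eq_zero_iff K p _).2 hd
    apply nu_ne_zero (p := p) (N := N) hx
    rw [← hn, ← cast_emod_toNat (p := p), h1]

/-- Artin-Schreier: `x - x ^ p = 1` is solvable in a field with `p ^ N` elements if `p ∣ N`. -/
theorem artin_schreier {N : ℕ} (hN : Fintype.card K = p ^ N) (hpN : p ∣ N) (hN0 : N ≠ 0) :
    ∃ x : K, x - x ^ p = 1 := by
  classical
  let L := AlgebraicClosure K
  have : CharP L p := charP_of_injective_algebraMap (algebraMap K L).injective p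
  obtain ⟨y, hy⟩ : ∃ y : L, y ^ p - y + 1 = 0 := by
    have hdeg : (Polynomial.X ^ p - Polynomial.X + Polynomial.C 1 : Polynomial L).degree ≠ 0 := by
      have h1 : (Polynomial.X ^ p - Polynomial.X + Polynomial.C 1 : Polynomial L).natDegree
          = p := by
        have := hp.out.one_lt
        rw [Polynomial.natDegree_add_C]
        exact FiniteField.X_pow_card_sub_X_natDegree_eq L this
      intro h0
      have := Polynomial.natDegree_eq_zero_iff_degree_le_zero.2 h0.le
      rw [h1] at this
      exact hp.out.ne_zero this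
    obtain ⟨y, hy⟩ := IsAlgClosed.exists_root _ hdeg
    refine ⟨y, ?_⟩
    have := hy
    simp only [Polynomial.IsRoot, Polynomial.eval_add, Polynomial.eval_sub, Polynomial.eval_pow,
      Polynomial.eval_X, Polynomial.eval_C] at this
    exact this
  have hyp : y ^ p = y - 1 := by linear_combination hy
  have hk : ∀ k : ℕ, y ^ (p ^ k) = y - k := by
    intro k
    induction k with
    | zero => simp
    | succ k ih =>
      rw [pow_succ, pow_mul, ih, sub_pow_char, hyp]
      have : ((k : L)) ^ p = k := by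
        have := map_natCast (frobenius L p) k
        rwa [frobenius_def] at this
      rw [this]; push_cast; ring
  have hq : y ^ (p ^ N) = y := by
    rw [hk N]
    have : (N : L) = 0 := (CharP.cast_eq_zero_iff L p N).2 hpN
    rw [this, sub_zero]
  obtain ⟨x, hx⟩ : ∃ x : K, algebraMap K L x = y := by
    by_contra hne
    push Not at hne
    let S : Finset L := insert y (Finset.univ.image (algebraMap K L))
    have hS : S.card = p ^ N + 1 := by
      rw [Finset.card_insert_of_notMem, Finset.card_image_of_injective _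
        (algebraMap K L).injective, Finset.card_univ, hN]
      intro h
      obtain ⟨x, _, hx⟩ := Finset.mem_image.1 h
      exact hne x hx
    have h1 : (1 : ℕ) < p ^ N := Nat.one_lt_pow hN0 hp.out.one_lt
    have h0 : (Polynomial.X ^ (p ^ N) - Polynomial.X : Polynomial L) = 0 := by
      refine Polynomial.eq_zero_of_natDegree_lt_card_of_eval_eq_zero' _ S ?_ ?_
      · intro z hz
        simp only [Polynomial.eval_sub, Polynomial.eval_pow, Polynomial.eval_X]
        rcases Finset.mem_insert.1 hz with h | h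
        · rw [h, hq, sub_self]
        · obtain ⟨x, _, hx⟩ := Finset.mem_image.1 h
          rw [← hx, ← map_pow, pow_card_N hN, sub_self]
      · rw [hS, FiniteField.X_pow_card_sub_X_natDegree_eq L h1]
        omega
    exact FiniteField.X_pow_card_sub_X_ne_zero L h1 h0
  refine ⟨x, (algebraMap K L).injective ?_⟩
  rw [map_sub, map_pow, hx, map_one]
  linear_combination -hy

theorem exists_not_fixed {N s : ℕ} (hN : Fintype.card K = p ^ N) (hs : 1 ≤ s) (hsN : s + 1 < N) :
    ∃ β : K, (β ^ p - β) ^ (p ^ s) ≠ β ^ p - β := by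
  by_contra hne
  push Not at hne
  have hp1 := hp.out.one_lt
  let P : Polynomial K := Polynomial.X ^ (p ^ (s + 1)) - Polynomial.X ^ (p ^ s)
    - Polynomial.X ^ p + Polynomial.X
  have hps : p ^ s < p ^ (s + 1) := Nat.pow_lt_pow_right hp1 (by omega)
  have hp2 : p < p ^ (s + 1) := by
    calc p = p ^ 1 := (pow_one p).symm
      _ < p ^ (s + 1) := Nat.pow_lt_pow_right hp1 (by omega)
  have hdeg : P.natDegree ≤ p ^ (s + 1) := by
    refine (Polynomial.natDegree_add_le _ _).trans (max_le ?_ ?_)
    · refine (Polynomial.natDegree_sub_le _ _).trans (max_le ?_ ?_)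
      · refine (Polynomial.natDegree_sub_le _ _).trans (max_le ?_ ?_)
        · rw [Polynomial.natDegree_X_pow]
        · rw [Polynomial.natDegree_X_pow]; exact hps.le
      · rw [Polynomial.natDegree_X_pow]; exact hp2.le
    · rw [Polynomial.natDegree_X]; omega
  have h0 : P = 0 := by
    refine Polynomial.eq_zero_of_natDegree_lt_card_of_eval_eq_zero' P Finset.univ ?_ ?_
    · intro β _
      have h := hne β
      rw [sub_pow_char_pow, ← pow_mul, ← pow_succ'] at h
      simp only [P, Polynomial.eval_sub, Polynomial.eval_add, Polynomial.eval_pow,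
        Polynomial.eval_X]
      linear_combination h
    · rw [Finset.card_univ, hN]
      exact lt_of_le_of_lt hdeg (Nat.pow_lt_pow_right hp1 hsN)
  have h1 : P.coeff (p ^ (s + 1)) = 1 := by
    simp only [P, Polynomial.coeff_sub, Polynomial.coeff_add, Polynomial.coeff_X_pow,
      Polynomial.coeff_X]
    rw [if_true, if_neg (by omega), if_neg (by omega), if_neg (by omega)]
    ring
  rw [h0] at h1
  simp at h1

end FF

end Pool.Agent.Helper94.CoD
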