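import Mathlib

set_option autoImplicit false

/-! Regular wreath products: exponent, generation, deep elements of the lower central series. -/

open scoped commutatorElement
open Finset

namespace Pool.Agent.Helper94.CoD

section LC

/-- `LC G n` is the `n`-th term of the lower central series (starting at `0`). -/
abbrev LC (G : Type) [Group G] (n : ℕ) : Subgroup G := (⊤ : Subgroup G).lowerCentralSeries n

theorem LC_map {G G' : Type} [Group G] [Group G'] (f : G →* G') (n : ℕ) :
    (LC G n).map f ≤ LC G' n := by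
  induction n with
  | zero => exact le_top
  | succ n ih =>
    rw [LC, LC, Subgroup.lowerCentralSeries_succ, Subgroup.lowerCentralSeries_succ,
      Subgroup.map_commutator]
    exact Subgroup.commutator_mono ih le_top

theorem LC_map_mem {G G' : Type} [Group G] [Group G'] (f : G →* G') {n : ℕ} {x : G}
    (hx : x ∈ LC G n) : f x ∈ LC G' n := LC_map f n (Subgroup.mem_map_of_mem f hx)

theorem LC_map_surj {G G' : Type} [Group G] [Group G'] (f : G →* G')
    (hf : Function.Surjective f) (n : ℕ) : (LC G n).map f = LC G' n := by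
  induction n with
  | zero => exact Subgroup.map_top_of_surjective f hf
  | succ n ih =>
    rw [LC, LC, Subgroup.lowerCentralSeries_succ, Subgroup.lowerCentralSeries_succ,
      Subgroup.map_commutator]
    congr 1
    exact Subgroup.map_top_of_surjective f hf

theorem LC_comm {G : Type} [Group G] {n : ℕ} {x : G} (hx : x ∈ LC G n) (g : G) :
    ⁅x, g⁆ ∈ LC G (n + 1) := Subgroup.commutator_mem_commutator hx (Subgroup.mem_top g)

theorem LC_anti {G : Type} [Group G] {m n : ℕ} (h : m ≤ n) : LC G n ≤ LC G m :=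
  Subgroup.lowerCentralSeries_antitone _ h

instance LC_normal {G : Type} [Group G] (n : ℕ) : (LC G n).Normal := by
  have : (LC G n).Characteristic := inferInstance
  infer_instance

end LC

section Wr

variable {D Q : Type} [Group D] [Group Q]

open RegularWreathProduct

/-- Base group inclusion. -/
def bs : (Q → D) →* (D ≀ᵣ Q) where
  toFun f := ⟨f, 1⟩
  map_one' := rfl
  map_mul' f g := by
    ext x
    · simp
    · simp

@[simp] theorem bs_left (f : Q → D) : (bs f).left = f := rfl
@[simp] theorem bs_right (f : Q → D) : (bs f).right = 1 := rfl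

theorem bs_injective : Function.Injective (bs : (Q → D) →* (D ≀ᵣ Q)) := fun f g h => by
  have := congrArg RegularWreathProduct.left h
  exact this

theorem eq_bs_of_right {y : D ≀ᵣ Q} (h : y.right = 1) : y = bs y.left := by
  ext x
  · rfl
  · exact h

theorem eq_bs_mul_inl (y : D ≀ᵣ Q) : y = bs y.left * inl y.right := by
  ext x
  · simp
  · simp

theorem inl_conj (q : Q) (f : Q → D) :
    inl q * bs f * (inl q)⁻¹ = bs (fun x => f (q⁻¹ * x)) := by
  ext x
  · simp
  · simp

theorem right_pow (y : D ≀ᵣ Q) (n : ℕ) : (y ^ n).right = y.right ^ n :=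
  map_pow (rightHom : D ≀ᵣ Q →* Q) y n

theorem wr_pow {a b : ℕ} (ha : ∀ q : Q, q ^ a = 1) (hb : ∀ d : D, d ^ b = 1) (y : D ≀ᵣ Q) :
    y ^ (a * b) = 1 := by
  have h1 : (y ^ a).right = 1 := by rw [right_pow, ha]
  rw [pow_mul, eq_bs_of_right h1, ← map_pow]
  have h2 : (y ^ a).left ^ b = 1 := by
    ext x
    exact hb _
  rw [h2, map_one]

theorem wr_closure [Finite Q] {X : Set D} {Z : Set Q}
    (hX : Subgroup.closure X = ⊤) (hZ : Subgroup.closure Z = ⊤) (U : Subgroup (D ≀ᵣ Q))
    (h1' : ∀ d ∈ X, ∀ f : Q → D, f 1 = d → (∀ x, x ≠ 1 → f x = 1) → bs f ∈ U)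
    (h2 : ∀ q ∈ Z, inl q ∈ U) : U = ⊤ := by
  classical
  have h1 : ∀ d ∈ X, bs (Pi.mulSingle 1 d) ∈ U := fun d hd =>
    h1' d hd _ (Pi.mulSingle_eq_same _ _) (fun x hx => Pi.mulSingle_eq_of_ne hx _)
  have hq : ∀ q : Q, (inl q : D ≀ᵣ Q) ∈ U := by
    intro q
    have : Subgroup.closure Z ≤ U.comap (inl : Q →* D ≀ᵣ Q) := by
      rw [Subgroup.closure_le]; exact h2
    exact this (hZ ▸ Subgroup.mem_top q)
  have hd : ∀ d : D, (bs (Pi.mulSingle 1 d) : D ≀ᵣ Q) ∈ U := by
    intro d
    have : Subgroup.closure X ≤ U.comap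
        ((bs : (Q → D) →* (D ≀ᵣ Q)).comp (MonoidHom.mulSingle (fun _ : Q => D) 1)) := by
      rw [Subgroup.closure_le]; exact h1
    exact this (hX ▸ Subgroup.mem_top d)
  have hqd : ∀ (q : Q) (d : D), (bs (Pi.mulSingle q d) : D ≀ᵣ Q) ∈ U := by
    intro q d
    have h3 : (bs (Pi.mulSingle q d) : D ≀ᵣ Q) =
        inl q * bs (Pi.mulSingle 1 d) * (inl q)⁻¹ := by
      rw [inl_conj]
      congr 1
      ext x
      by_cases hx : x = q
      · subst hx; simp
      · rw [Pi.mulSingle_eq_of_ne hx, Pi.mulSingle_eq_of_ne]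
        intro h
        exact hx (inv_mul_eq_one.1 h).symm
    rw [h3]
    exact U.mul_mem (U.mul_mem (hq q) (hd d)) (U.inv_mem (hq q))
  have hf : ∀ f : Q → D, (bs f : D ≀ᵣ Q) ∈ U := by
    intro f
    have := Subgroup.pi_mem_of_mulSingle_mem (H := U.comap (bs : (Q → D) →* (D ≀ᵣ Q))) f
      (fun q => hqd q (f q))
    exact this
  rw [eq_top_iff]
  intro y _
  rw [eq_bs_mul_inl y]
  exact U.mul_mem (hf _) (hq _)

/-- Functoriality in the base. -/
def wrMap {D' : Type} [Group D'] (ψ : D →* D') : (D ≀ᵣ Q) →* (D' ≀ᵣ Q) where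
  toFun y := ⟨fun x => ψ (y.left x), y.right⟩
  map_one' := by ext x <;> simp
  map_mul' a b := by ext x <;> simp

theorem comm_inl_bs (q : Q) (f : Q → D) :
    ⁅bs f, (inl q : D ≀ᵣ Q)⁆ = bs (fun x => f x * (f (q⁻¹ * x))⁻¹) := by
  have h : ⁅bs f, (inl q : D ≀ᵣ Q)⁆ = bs f * (inl q * bs f * (inl q)⁻¹)⁻¹ := by
    rw [commutatorElement_def]; group
  rw [h, inl_conj, ← map_inv, ← map_mul]
  rfl

end Wr

end Pool.Agent.Helper94.CoD
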