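import Mathlib
import Pool.Agent.Helper94.CoD.Wr

set_option autoImplicit false

/-! Deep elements of wreath products of cyclic groups by `p`-groups. -/

open scoped commutatorElement
open Finset

namespace Pool.Agent.Helper94.CoD

section Deep

variable (n : ℕ) {Q : Type} [Group Q]

open RegularWreathProduct

/-- Base element with additive coefficients. -/
def bz (f : Q → ZMod n) : (Multiplicative (ZMod n)) ≀ᵣ Q := bs (fun x => Multiplicative.ofAdd (f x))

theorem bz_add (f g : Q → ZMod n) : bz n (f + g) = bz n f * bz n g := by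
  rw [bz, bz, bz, ← map_mul]; rfl

theorem bz_zero : bz n (0 : Q → ZMod n) = 1 := by
  rw [bz]
  exact map_one bs

theorem bz_neg (f : Q → ZMod n) : bz n (-f) = (bz n f)⁻¹ := by
  rw [bz, bz, ← map_inv]; rfl

/-- Functions whose base element lies in the `k`-th term of the lower central series. -/
def Wk (Q : Type) [Group Q] (k : ℕ) : AddSubgroup (Q → ZMod n) where
  carrier := {f | bz n f ∈ LC ((Multiplicative (ZMod n)) ≀ᵣ Q) k}
  zero_mem' := by
    change bz n 0 ∈ LC ((Multiplicative (ZMod n)) ≀ᵣ Q) k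
    rw [bz_zero]; exact Subgroup.one_mem _
  add_mem' := fun {a b} ha hb => by
    change bz n (a + b) ∈ LC ((Multiplicative (ZMod n)) ≀ᵣ Q) k
    rw [bz_add]; exact Subgroup.mul_mem _ ha hb
  neg_mem' := fun {a} ha => by
    change bz n (-a) ∈ LC ((Multiplicative (ZMod n)) ≀ᵣ Q) k
    rw [bz_neg]; exact Subgroup.inv_mem _ ha

theorem mem_Wk {k : ℕ} {f : Q → ZMod n} :
    f ∈ Wk n Q k ↔ bz n f ∈ LC ((Multiplicative (ZMod n)) ≀ᵣ Q) k := Iff.rfl

/-- Left translation. -/
def Tq (q : Q) : AddMonoid.End (Q → ZMod n) where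
  toFun f x := f (q⁻¹ * x)
  map_zero' := rfl
  map_add' _ _ := rfl

theorem Tq_apply (q : Q) (f : Q → ZMod n) (x : Q) : Tq n q f x = f (q⁻¹ * x) := rfl

theorem Tq_pow (q : Q) (k : ℕ) : (Tq n q) ^ k = Tq n (q ^ k) := by
  induction k with
  | zero =>
    refine AddMonoidHom.ext fun f => funext fun x => ?_
    change f x = f ((q ^ 0)⁻¹ * x)
    rw [pow_zero, inv_one, one_mul]
  | succ k ih =>
    rw [pow_succ, ih]
    refine AddMonoidHom.ext fun f => funext fun x => ?_
    change Tq n (q ^ k) (Tq n q f) x = Tq n (q ^ (k + 1)) f x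
    rw [Tq_apply, Tq_apply, Tq_apply, pow_succ, mul_inv_rev, mul_assoc]

variable {n}

theorem Wk_anti {k l : ℕ} (h : k ≤ l) : Wk n Q l ≤ Wk n Q k := fun _ hf => LC_anti h hf

theorem Wk_zero (f : Q → ZMod n) : f ∈ Wk n Q 0 := Subgroup.mem_top (bz n f)

theorem Wk_T {k : ℕ} {f : Q → ZMod n} (hf : f ∈ Wk n Q k) (q : Q) : Tq n q f ∈ Wk n Q k := by
  have h : bz n (Tq n q f) = inl q * bz n f * (inl q)⁻¹ := by
    rw [bz, bz, inl_conj]; rfl
  rw [mem_Wk, h]
  exact (LC_normal k).conj_mem _ hf _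

theorem Wk_step {k : ℕ} {f : Q → ZMod n} (hf : f ∈ Wk n Q k) (q : Q) :
    (Tq n q - 1) f ∈ Wk n Q (k + 1) := by
  have h : bz n ((Tq n q - 1) f) = (⁅bz n f, (inl q : (Multiplicative (ZMod n)) ≀ᵣ Q)⁆)⁻¹ := by
    rw [bz, bz, comm_inl_bs, ← map_inv]
    congr 1
    ext x
    change Multiplicative.ofAdd (f (q⁻¹ * x) - f x)
      = (Multiplicative.ofAdd (f x) * (Multiplicative.ofAdd (f (q⁻¹ * x)))⁻¹)⁻¹
    rw [mul_inv_rev, inv_inv, ofAdd_sub, div_eq_mul_inv]
  rw [mem_Wk, h]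
  exact Subgroup.inv_mem _ (LC_comm hf _)

theorem Wk_sum {k : ℕ} {f : Q → ZMod n} (hf : f ∈ Wk n Q k) (q : Q) (m : ℕ) :
    (∑ j ∈ range m, (Tq n q) ^ j) f ∈ Wk n Q k := by
  have : (∑ j ∈ range m, (Tq n q) ^ j) f = ∑ j ∈ range m, ((Tq n q) ^ j) f :=
    AddMonoidHom.finsetSum_apply _ _ _
  rw [this]
  refine sum_mem fun j _ => ?_
  rw [Tq_pow]
  exact Wk_T hf _

theorem Wk_sum2 {k : ℕ} {f : Q → ZMod n} (hf : f ∈ Wk n Q k) (q : Q) (m : ℕ) :
    (∑ i ∈ range m, ∑ j ∈ range i, (Tq n q) ^ j) f ∈ Wk n Q k := by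
  have : (∑ i ∈ range m, ∑ j ∈ range i, (Tq n q) ^ j) f
      = ∑ i ∈ range m, (∑ j ∈ range i, (Tq n q) ^ j) f :=
    AddMonoidHom.finsetSum_apply _ _ _
  rw [this]
  exact sum_mem fun i _ => Wk_sum hf q i

theorem geom_expand {A : Type} [Ring A] (T : A) (m : ℕ) :
    ∑ i ∈ range m, T ^ i = (m : A) + (T - 1) * ∑ i ∈ range m, ∑ j ∈ range i, T ^ j := by
  rw [Finset.mul_sum]
  have : ∀ i, (T - 1) * ∑ j ∈ range i, T ^ j = T ^ i - 1 := fun i => mul_geom_sum T i
  simp only [this, Finset.sum_sub_distrib, Finset.sum_const, card_range, nsmul_eq_mul, mul_one]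
  abel

/-- Sums `∑ p ^ j g j` with `g j` of depth `i - j`. -/
def Gd (p i : ℕ) (f : Q → ZMod n) : Prop :=
  ∃ g : ℕ → (Q → ZMod n), (∀ j, g j ∈ Wk n Q (i - j)) ∧ f = ∑ j ∈ range (i + 1), (p ^ j) • g j

theorem Gd_zero (p : ℕ) (f : Q → ZMod n) : Gd p 0 f :=
  ⟨fun _ => f, fun j => by simpa using Wk_zero f, by simp⟩

theorem Gd_step {p i : ℕ} {f : Q → ZMod n} (hf : Gd p i f) (q : Q) :
    Gd p (i + 1) ((∑ k ∈ range p, (Tq n q) ^ k) f) := by
  obtain ⟨g, hg, hfg⟩ := hf
  let R : AddMonoid.End (Q → ZMod n) := ∑ i ∈ range p, ∑ j ∈ range i, (Tq n q) ^ j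
  let g1 : ℕ → (Q → ZMod n) := fun j => if j = 0 then 0 else g (j - 1)
  let g2 : ℕ → (Q → ZMod n) := fun j => if j ≤ i then (Tq n q - 1) (R (g j)) else 0
  refine ⟨fun j => g1 j + g2 j, fun j => ?_, ?_⟩
  · refine add_mem ?_ ?_
    · change (if j = 0 then 0 else g (j - 1)) ∈ _
      split_ifs with h
      · exact zero_mem _
      · have : i + 1 - j = i - (j - 1) := by omega
        rw [this]
        exact hg _
    · change (if j ≤ i then (Tq n q - 1) (R (g j)) else 0) ∈ _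
      split_ifs with h
      · have : i + 1 - j = i - j + 1 := by omega
        rw [this]
        exact Wk_step (Wk_sum2 (hg j) q p) q
      · exact zero_mem _
  · have h1 : (∑ k ∈ range p, (Tq n q) ^ k) f = p • f + (Tq n q - 1) (R f) := by
      rw [geom_expand]
      change ((p : AddMonoid.End (Q → ZMod n)) f) + (Tq n q - 1) (R f) = _
      rw [AddMonoid.End.natCast_apply]
    have h2 : ∑ j ∈ range (i + 1 + 1), (p ^ j) • g1 j = p • f := by
      rw [Finset.sum_range_succ', hfg, Finset.smul_sum]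
      simp only [g1, if_true, smul_zero, add_zero]
      refine Finset.sum_congr rfl fun j _ => ?_
      rw [if_neg (Nat.succ_ne_zero j), Nat.add_sub_cancel, smul_smul, pow_succ']
    have h3 : ∑ j ∈ range (i + 1 + 1), (p ^ j) • g2 j = (Tq n q - 1) (R f) := by
      rw [Finset.sum_range_succ]
      have h4 : g2 (i + 1) = 0 := by simp [g2]
      rw [h4, smul_zero, add_zero, hfg, map_sum, map_sum]
      refine Finset.sum_congr rfl fun j hj => ?_
      have hj' : j ≤ i := by have := Finset.mem_range.1 hj; omega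
      simp only [g2, if_pos hj']
      rw [map_nsmul, map_nsmul]
    rw [h1, ← h2, ← h3, ← Finset.sum_add_distrib]
    refine Finset.sum_congr rfl fun j _ => ?_
    rw [smul_add]

theorem Gd_mem {p i e : ℕ} (he : (p : ZMod n) ^ e = 0) (he1 : 1 ≤ e) {f : Q → ZMod n}
    (hf : Gd p i f) : f ∈ Wk n Q (i - (e - 1)) := by
  obtain ⟨g, hg, rfl⟩ := hf
  refine sum_mem fun j _ => ?_
  rcases lt_or_ge j e with h | h
  · exact AddSubgroup.nsmul_mem _ (Wk_anti (by omega) (hg j)) _
  · have : (p ^ j) • g j = 0 := by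
      ext x
      rw [Pi.smul_apply, nsmul_eq_mul, Nat.cast_pow]
      have h1 : (p : ZMod n) ^ j = 0 := by
        obtain ⟨d, rfl⟩ := Nat.exists_eq_add_of_le h
        rw [pow_add, he, zero_mul]
      rw [h1, zero_mul]; rfl
    rw [this]
    exact zero_mem _

theorem exists_chain {p : ℕ} [hp : Fact p.Prime] (E : Subgroup Q) {i : ℕ}
    (hE : Nat.card E = p ^ (i + 1)) : ∃ E0 : Subgroup Q, E0 ≤ E ∧ Nat.card E0 = p ^ i ∧
      ∃ c ∈ E, ∀ x ∈ E, ∃ k < p, ∀ l < p, ((c ^ l)⁻¹ * x ∈ E0 ↔ l = k) := by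
  have hfin : Finite E := Nat.finite_of_card_ne_zero (by
    rw [hE]; exact pow_ne_zero _ hp.out.ne_zero)
  obtain ⟨M, hM⟩ := Sylow.exists_subgroup_card_pow_prime (G := E) p (n := i)
    (by rw [hE]; exact pow_dvd_pow p (Nat.le_succ i))
  have hidx : M.index = p := by
    have h := M.card_mul_index
    rw [hM, hE, pow_succ] at h
    exact Nat.eq_of_mul_eq_mul_left (pow_pos hp.out.pos i) h
  have hnorm : M.Normal := by
    apply Subgroup.normal_of_index_eq_minFac_card
    rw [hidx, hE, Nat.Prime.pow_minFac hp.out (Nat.succ_ne_zero i)]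
  have hcard : Nat.card (E ⧸ M) = p := hidx
  have hne : M ≠ ⊤ := by
    intro h
    rw [h, Subgroup.index_top] at hidx
    exact hp.out.one_lt.ne hidx
  obtain ⟨c, hc⟩ : ∃ c : E, c ∉ M := by
    by_contra h
    push Not at h
    exact hne (eq_top_iff.2 fun x _ => h x)
  have hc1 : (QuotientGroup.mk' M c) ≠ 1 := by
    intro h
    exact hc ((QuotientGroup.eq_one_iff c).1 h)
  have hord : orderOf (QuotientGroup.mk' M c) = p := by
    have h1 : (QuotientGroup.mk' M c) ^ p = 1 := by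
      rw [← hcard]; exact pow_card_eq_one'
    exact orderOf_eq_prime h1 hc1
  refine ⟨M.map E.subtype, ?_, ?_, (c : Q), c.2, fun x hx => ?_⟩
  · rintro _ ⟨y, _, rfl⟩
    exact y.2
  · rw [Nat.card_congr (M.equivMapOfInjective _ E.subtype_injective).toEquiv.symm, hM]
  · obtain ⟨m, hm⟩ := mem_powers_of_prime_card (g' := QuotientGroup.mk' M ⟨x, hx⟩) hcard hc1
    refine ⟨m % p, Nat.mod_lt _ hp.out.pos, fun l hl => ?_⟩
    have h1 : ((((c : Q) ^ l)⁻¹ * x) ∈ M.map E.subtype) ↔ ((c ^ l)⁻¹ * (⟨x, hx⟩ : E)) ∈ M := by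
      constructor
      · rintro ⟨y, hy, hy2⟩
        have : y = (c ^ l)⁻¹ * (⟨x, hx⟩ : E) := Subtype.ext hy2
        rw [← this]; exact hy
      · intro h
        exact ⟨_, h, rfl⟩
    have h2 : ((c ^ l)⁻¹ * (⟨x, hx⟩ : E)) ∈ M ↔
        QuotientGroup.mk' M c ^ l = QuotientGroup.mk' M ⟨x, hx⟩ := by
      rw [← map_pow]
      exact QuotientGroup.eq.symm
    have h3 : QuotientGroup.mk' M ⟨x, hx⟩ = QuotientGroup.mk' M c ^ (m % p) := by
      rw [← hm, ← hord, pow_mod_orderOf]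
    rw [h1, h2, h3]
    constructor
    · intro h
      exact pow_injOn_Iio_orderOf (by rw [Set.mem_Iio, hord]; exact hl)
        (by rw [Set.mem_Iio, hord]; exact Nat.mod_lt _ hp.out.pos) h
    · intro h
      rw [h]

open scoped Classical in
/-- Indicator function. -/
noncomputable def ind (n : ℕ) (E : Subgroup Q) : Q → ZMod n := fun x => if x ∈ E then 1 else 0

theorem Gd_ind {p : ℕ} [hp : Fact p.Prime] (i : ℕ) :
    ∀ E : Subgroup Q, Nat.card E = p ^ i → Gd p i (ind n E) := by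
  induction i with
  | zero => intro E _; exact Gd_zero p _
  | succ i ih =>
    intro E hE
    obtain ⟨E0, hle, hE0, c, hc, hx⟩ := exists_chain E hE
    have h := Gd_step (ih E0 hE0) c
    have h2 : (∑ k ∈ range p, (Tq n c) ^ k) (ind n E0) = ind n E := by
      have h3 : (∑ k ∈ range p, (Tq n c) ^ k) (ind n E0)
          = ∑ k ∈ range p, ((Tq n c) ^ k) (ind n E0) := AddMonoidHom.finsetSum_apply _ _ _
      rw [h3]
      ext x
      rw [Finset.sum_apply]
      have h4 : ∀ k, ((Tq n c) ^ k) (ind n E0) x = ind n E0 ((c ^ k)⁻¹ * x) := by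
        intro k
        rw [Tq_pow, Tq_apply]
      simp only [h4]
      by_cases hxE : x ∈ E
      · obtain ⟨k, hk, hk2⟩ := hx x hxE
        rw [Finset.sum_eq_single k]
        · rw [ind, ind, if_pos ((hk2 k hk).2 rfl), if_pos hxE]
        · intro l hl hlk
          rw [ind, if_neg]
          intro hmem
          exact hlk ((hk2 l (Finset.mem_range.1 hl)).1 hmem)
        · intro hk'
          exact absurd (Finset.mem_range.2 hk) hk'
      · rw [ind, if_neg hxE]
        refine Finset.sum_eq_zero fun l _ => ?_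
        rw [ind, if_neg]
        intro hmem
        apply hxE
        have : x = c ^ l * ((c ^ l)⁻¹ * x) := by group
        rw [this]
        exact E.mul_mem (E.pow_mem hc l) (hle hmem)
    rw [← h2]
    exact h

theorem ind_mem_Wk {p : ℕ} [hp : Fact p.Prime] {i e : ℕ} (he : (p : ZMod n) ^ e = 0) (he1 : 1 ≤ e)
    (E : Subgroup Q) (hE : Nat.card E = p ^ i) : ind n E ∈ Wk n Q (i - (e - 1)) :=
  Gd_mem he he1 (Gd_ind i E hE)

end Deep

end Pool.Agent.Helper94.CoD
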