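import Mathlib
import Pool.Agent.Helper94.CoD.Deep

set_option autoImplicit false

/-! The wreath product `Y = C_p ≀ (P × (P ≀ (C_{p^2})^r))`. -/

open scoped commutatorElement
open Finset

namespace Pool.Agent.Helper94.CoD

open RegularWreathProduct

section Mono

variable {p : ℕ} [hp : Fact p.Prime] {Q : Type} [Group Q] [Finite Q]

instance : NeZero p := ⟨hp.out.ne_zero⟩

theorem isPGroup_wr {D : Type} [Group D] [Finite D] (hD : IsPGroup p D) (hQ : IsPGroup p Q) :
    IsPGroup p (D ≀ᵣ Q) := by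
  obtain ⟨a, ha⟩ := IsPGroup.iff_card.1 hD
  obtain ⟨b, hb⟩ := IsPGroup.iff_card.1 hQ
  refine IsPGroup.of_card (n := a * p ^ b + b) ?_
  rw [RegularWreathProduct.card, ha, hb, ← pow_mul, pow_add]

theorem isPGroup_zmod : IsPGroup p (Multiplicative (ZMod p)) := by
  refine IsPGroup.of_card (n := 1) ?_
  rw [pow_one]
  exact (Nat.card_congr Multiplicative.toAdd).trans (Nat.card_zmod p)

/-- A nontrivial normal subgroup of a finite `p`-group contains a nontrivial central element. -/
theorem exists_central {G : Type} [Group G] [Finite G] (hG : IsPGroup p G) (M : Subgroup G)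
    [hM : M.Normal] (hne : M ≠ ⊥) : ∃ z ∈ M, z ≠ 1 ∧ ∀ g : G, g * z = z * g := by
  have hG' : IsPGroup p (ConjAct G) := hG.of_equiv ConjAct.toConjAct
  have hnt : Nontrivial M := (Subgroup.nontrivial_iff_ne_bot M).2 hne
  have hdvd : p ∣ Nat.card M := by
    obtain ⟨n, hn0, hn⟩ := (hG.to_subgroup M).nontrivial_iff_card.mp hnt
    exact hn.symm ▸ dvd_pow_self _ (ne_of_gt hn0)
  have h1 : (1 : M) ∈ MulAction.fixedPoints (ConjAct G) M := by
    intro g
    exact smul_one g
  obtain ⟨z, hz, hz1⟩ := hG'.exists_fixed_point_of_prime_dvd_card_of_fixed_point M hdvd h1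
  refine ⟨z, z.2, fun h => hz1 (Subtype.ext h.symm), fun g => ?_⟩
  have h2 := hz (ConjAct.toConjAct g)
  have h3 : g * (z : G) * g⁻¹ = z := congrArg Subtype.val h2
  calc g * (z : G) = g * z * g⁻¹ * g := by group
    _ = z * g := by rw [h3]

theorem bs_comm_all {D : Type} [CommGroup D] (y : D ≀ᵣ Q) (g : Q → D) (h : y * bs g = bs g * y)
    (x : Q) : g (y.right⁻¹ * x) = g x := by
  have h1 := congrArg (fun w => RegularWreathProduct.left w x) h
  simp only [mul_left, bs_left, bs_right, Pi.mul_apply, inv_one, one_mul] at h1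
  rw [mul_comm (g x)] at h1
  exact mul_left_cancel h1

/-- `C_p ≀ Q` is monolithic. -/
theorem mono_wr (hQ : IsPGroup p Q) (M : Subgroup ((Multiplicative (ZMod p)) ≀ᵣ Q))
    [M.Normal] (hne : M ≠ ⊥) : bz p (fun _ : Q => (1 : ZMod p)) ∈ M := by
  classical
  obtain ⟨z, hzM, hz1, hz⟩ := exists_central (isPGroup_wr isPGroup_zmod hQ) M hne
  have hr : z.right = 1 := by
    have h := bs_comm_all z (Pi.mulSingle 1 (Multiplicative.ofAdd (1 : ZMod p))) (hz _).symm
      z.right
    rw [inv_mul_cancel, Pi.mulSingle_eq_same] at h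
    by_contra hne
    rw [Pi.mulSingle_eq_of_ne hne] at h
    have h2 : (1 : ZMod p) = 0 := h
    exact one_ne_zero h2
  have hconst : ∀ x : Q, z.left x = z.left 1 := by
    intro x
    have h := hz (inl x)
    have h1 := congrArg (fun w => RegularWreathProduct.left w x) h
    simp only [mul_left, left_inl, right_inl, Pi.mul_apply, Pi.one_apply, one_mul, hr,
      inv_one, mul_one, inv_mul_cancel] at h1
    exact h1.symm
  have hc : (z.left 1).toAdd ≠ 0 := by
    intro h0
    apply hz1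
    ext x
    · rw [hconst x]
      exact h0
    · exact hr
  obtain ⟨k, hk⟩ : ∃ k : ℕ, (k : ZMod p) * (z.left 1).toAdd = 1 := by
    obtain ⟨k, hk⟩ := ZMod.natCast_zmod_surjective ((z.left 1).toAdd)⁻¹
    exact ⟨k, by rw [hk, inv_mul_cancel₀ hc]⟩
  have hzk : z ^ k = bz p (fun _ : Q => (1 : ZMod p)) := by
    rw [eq_bs_of_right hr, ← map_pow, bz]
    congr 1
    ext x
    rw [Pi.pow_apply, hconst x]
    apply Multiplicative.toAdd.injective
    rw [toAdd_pow, nsmul_eq_mul, hk]
    rfl
  rw [← hzk]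
  exact M.pow_mem hzM k

end Mono

section Data

variable (p : ℕ) [hp : Fact p.Prime] (P : Type) [Group P] [Finite P] (r : ℕ)

abbrev EE := Fin r → Multiplicative (ZMod (p ^ 2))
abbrev TT := P ≀ᵣ (EE p r)
abbrev SS := P × TT p P r
abbrev YY := (Multiplicative (ZMod p)) ≀ᵣ (SS p P r)

instance : NeZero (p ^ 2) := ⟨pow_ne_zero _ hp.out.ne_zero⟩

variable {p P r}

theorem card_EE : Nat.card (EE p r) = p ^ (2 * r) := by
  rw [Nat.card_fun]
  have : Nat.card (Multiplicative (ZMod (p ^ 2))) = p ^ 2 :=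
    (Nat.card_congr Multiplicative.toAdd).trans (Nat.card_zmod _)
  rw [this, Nat.card_fin, ← pow_mul]

theorem isPGroup_EE : IsPGroup p (EE p r) := IsPGroup.of_card card_EE

theorem pow_EE (x : EE p r) : x ^ (p ^ 2) = 1 := by
  ext i
  rw [Pi.pow_apply]
  apply Multiplicative.toAdd.injective
  rw [toAdd_pow, nsmul_eq_mul, Nat.cast_pow]
  have : ((p : ZMod (p ^ 2)) ^ 2) = 0 := by
    have := ZMod.natCast_self (p ^ 2)
    rwa [Nat.cast_pow] at this
  rw [this, zero_mul]
  rfl

theorem pow_YY {e : ℕ} (he : Nat.card P = p ^ e) {N : ℕ} (hN : p ^ (e + 3) ∣ N)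
    (y : YY p P r) : y ^ N = 1 := by
  have hP : ∀ x : P, x ^ (p ^ e) = 1 := fun x => by rw [← he]; exact pow_card_eq_one'
  have hT : ∀ t : TT p P r, t ^ (p ^ 2 * p ^ e) = 1 := wr_pow pow_EE hP
  have hS : ∀ s : SS p P r, s ^ (p ^ 2 * p ^ e) = 1 := by
    rintro ⟨x, t⟩
    refine Prod.ext ?_ ?_
    · change x ^ (p ^ 2 * p ^ e) = 1
      rw [mul_comm, pow_mul, hP, one_pow]
    · exact hT t
  have hD : ∀ d : Multiplicative (ZMod p), d ^ p = 1 := by
    intro d
    apply Multiplicative.toAdd.injective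
    rw [toAdd_pow, nsmul_eq_mul, CharP.cast_eq_zero, zero_mul]
    rfl
  obtain ⟨c, rfl⟩ := hN
  have h : p ^ (e + 3) = p ^ 2 * p ^ e * p := by ring
  rw [pow_mul, h, wr_pow hS hD, one_pow]

theorem isPGroup_SS (hP : IsPGroup p P) : IsPGroup p (SS p P r) := by
  have hT : IsPGroup p (TT p P r) := isPGroup_wr hP isPGroup_EE
  obtain ⟨a, ha⟩ := IsPGroup.iff_card.1 hP
  obtain ⟨b, hb⟩ := IsPGroup.iff_card.1 hT
  refine IsPGroup.of_card (n := a + b) ?_
  rw [Nat.card_prod, ha, hb, pow_add]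

open scoped Classical in
/-- The function with value `d` at `1` and `1` elsewhere. -/
noncomputable def dl {D Q : Type} [Group D] [Group Q] (d : D) : Q → D :=
  fun x => if x = 1 then d else 1

theorem mulSingle_eq {D Q : Type} [Group D] [Group Q] {d : D} {f : Q → D} (h1 : f 1 = d)
    (h2 : ∀ x, x ≠ 1 → f x = 1) : (dl d : Q → D) = f := by
  funext x
  by_cases hx : x = 1
  · rw [dl, if_pos hx, hx, h1]
  · rw [dl, if_neg hx, h2 x hx]

/-- The generating family. -/
noncomputable def gY : Unit ⊕ P ⊕ P ⊕ Fin r → YY p P r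
  | Sum.inl _ => bs (dl (Multiplicative.ofAdd (1 : ZMod p)))
  | Sum.inr (Sum.inl x) => inl (x, 1)
  | Sum.inr (Sum.inr (Sum.inl x)) => inl (1, bs (dl x))
  | Sum.inr (Sum.inr (Sum.inr i)) => inl (1, inl (Pi.mulSingle i (Multiplicative.ofAdd 1)))

theorem closure_ofAdd_one (n : ℕ) [NeZero n] :
    Subgroup.closure {Multiplicative.ofAdd (1 : ZMod n)} = ⊤ := by
  rw [eq_top_iff]
  intro x _
  rw [Subgroup.mem_closure_singleton]
  refine ⟨(x.toAdd.val : ℤ), ?_⟩
  apply Multiplicative.toAdd.injective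
  rw [toAdd_zpow, zsmul_eq_mul]
  change ((x.toAdd.val : ℤ) : ZMod n) * 1 = x.toAdd
  rw [mul_one, Int.cast_natCast, ZMod.natCast_zmod_val]

theorem closure_gY : Subgroup.closure (Set.range (gY : _ → YY p P r)) = ⊤ := by
  classical
  set U := Subgroup.closure (Set.range (gY : _ → YY p P r)) with hU
  have hg : ∀ i, gY i ∈ U := fun i => Subgroup.subset_closure ⟨i, rfl⟩
  -- the top group of `T`
  have hE : ∀ x : EE p r, (inl (1, inl x) : YY p P r) ∈ U := by
    intro x
    let ψ : EE p r →* YY p P r := (inl : SS p P r →* YY p P r).comp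
      ((MonoidHom.inr P (TT p P r)).comp (inl : EE p r →* TT p P r))
    have h1 : ∀ i : Fin r, ∀ z : Multiplicative (ZMod (p ^ 2)),
        Pi.mulSingle i z ∈ U.comap ψ := by
      intro i z
      have h2 : Subgroup.closure {Multiplicative.ofAdd (1 : ZMod (p ^ 2))} ≤
          (U.comap ψ).comap (MonoidHom.mulSingle (fun _ : Fin r => Multiplicative (ZMod (p ^ 2))) i)
          := by
        rw [Subgroup.closure_le]
        rintro _ rfl
        exact hg (Sum.inr (Sum.inr (Sum.inr i)))
      rw [closure_ofAdd_one] at h2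
      exact h2 (Subgroup.mem_top z)
    exact Subgroup.pi_mem_of_mulSingle_mem (H := U.comap ψ) x (fun i => h1 i (x i))
  have hT : ∀ t : TT p P r, (inl (1, t) : YY p P r) ∈ U := by
    intro t
    have h1 : U.comap ((inl : SS p P r →* YY p P r).comp (MonoidHom.inr P (TT p P r))) = ⊤ := by
      refine wr_closure (X := Set.univ) (Z := Set.univ) Subgroup.closure_univ
        Subgroup.closure_univ _ ?_ ?_
      · intro d _ f hf1 hf
        have h2 := hg (Sum.inr (Sum.inr (Sum.inl d)))
        have h3 : (gY (Sum.inr (Sum.inr (Sum.inl d))) : YY p P r) = inl (1, bs f) := by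
          rw [gY, mulSingle_eq hf1 hf]
        rw [h3] at h2
        exact h2
      · intro q _
        exact hE q
    have h2 : t ∈ U.comap ((inl : SS p P r →* YY p P r).comp (MonoidHom.inr P (TT p P r))) := by
      rw [h1]; exact Subgroup.mem_top t
    exact h2
  have hS : ∀ s : SS p P r, (inl s : YY p P r) ∈ U := by
    rintro ⟨x, t⟩
    have h1 : (inl (x, t) : YY p P r) = inl (x, 1) * inl (1, t) := by
      rw [← map_mul, Prod.mk_mul_mk, mul_one, one_mul]
    rw [h1]
    exact U.mul_mem (hg (Sum.inr (Sum.inl x))) (hT t)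
  refine wr_closure (X := {Multiplicative.ofAdd (1 : ZMod p)}) (Z := Set.univ)
    (closure_ofAdd_one p) Subgroup.closure_univ _ ?_ ?_
  · rintro _ rfl f hf1 hf
    have h2 := hg (Sum.inl ())
    have h3 : (gY (Sum.inl ()) : YY p P r) = bs f := by
      rw [gY, mulSingle_eq hf1 hf]
    rw [h3] at h2
    exact h2
  · intro q _
    exact hS q

theorem fix_ind (y : YY p P r) (E' : Subgroup (SS p P r))
    (h : y * bz p (ind p E') = bz p (ind p E') * y) : y.right ∈ E' := by
  have h1 := bs_comm_all y _ h y.right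
  have h2 : ind p E' (y.right⁻¹ * y.right) = ind p E' y.right := h1
  rw [inv_mul_cancel, ind, ind, if_pos E'.one_mem] at h2
  by_contra hne
  rw [if_neg hne] at h2
  exact one_ne_zero h2

theorem ind_mem_LC (hP : IsPGroup p P) {N i : ℕ} (E' : Subgroup (SS p P r))
    (hE' : Nat.card E' = p ^ i) (hi : N ≤ i) : bz p (ind p E') ∈ LC (YY p P r) N := by
  have h := ind_mem_Wk (n := p) (e := 1) (by rw [pow_one]; exact CharP.cast_eq_zero _ _) le_rfl
    E' hE'
  have h2 : N ≤ i - (1 - 1) := by omega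
  exact Wk_anti h2 h

theorem right_eq_one (hP : IsPGroup p P) [Nontrivial P] {N : ℕ} (hN : N ≤ 2 * r)
    (y : YY p P r) (h : ∀ c ∈ LC (YY p P r) N, y * c = c * y) : y.right = 1 := by
  -- the two subgroups
  let ψ1 : EE p r →* SS p P r := (MonoidHom.inr P (TT p P r)).comp (inl : EE p r →* TT p P r)
  let ψ2 : (EE p r → P) →* SS p P r := (MonoidHom.inr P (TT p P r)).comp
    (bs : (EE p r → P) →* TT p P r)
  have hi1 : Function.Injective ψ1 := by
    intro a b hab
    have h1 := congrArg (fun s : SS p P r => s.2.right) hab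
    exact h1
  have hi2 : Function.Injective ψ2 := by
    intro a b hab
    have h1 := congrArg (fun s : SS p P r => s.2.left) hab
    exact h1
  have hc1 : Nat.card ψ1.range = p ^ (2 * r) := by
    rw [← card_EE (p := p) (r := r)]
    exact (Nat.card_congr (MonoidHom.ofInjective hi1).toEquiv).symm
  obtain ⟨e, he⟩ := IsPGroup.iff_card.1 hP
  have he1 : 1 ≤ e := by
    rcases Nat.eq_zero_or_pos e with h0 | h0
    · rw [h0, pow_zero] at he
      have := Finite.one_lt_card (α := P)
      omega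
    · exact h0
  have hc2 : Nat.card ψ2.range = p ^ (e * p ^ (2 * r)) := by
    have h1 : Nat.card (EE p r → P) = p ^ (e * p ^ (2 * r)) := by
      rw [Nat.card_fun, he, card_EE, ← pow_mul]
    rw [← h1]
    exact (Nat.card_congr (MonoidHom.ofInjective hi2).toEquiv).symm
  have hle2 : N ≤ e * p ^ (2 * r) := by
    have h1 : 2 * r < p ^ (2 * r) := Nat.lt_pow_self hp.out.one_lt
    have h2 : p ^ (2 * r) ≤ e * p ^ (2 * r) := Nat.le_mul_of_pos_left _ he1
    omega
  have hm1 := fix_ind y ψ1.range (h _ (ind_mem_LC hP ψ1.range hc1 hN))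
  have hm2 := fix_ind y ψ2.range (h _ (ind_mem_LC hP ψ2.range hc2 hle2))
  obtain ⟨a, ha⟩ := hm1
  obtain ⟨b, hb⟩ := hm2
  have h1 : (ψ1 a).2.left = 1 := rfl
  have h2 : (ψ2 b).2.right = 1 := rfl
  have h3 : y.right.2.left = 1 := by rw [← ha, h1]
  have h4 : y.right.2.right = 1 := by rw [← hb, h2]
  have h5 : y.right.1 = 1 := by rw [← ha]; rfl
  refine Prod.ext h5 ?_
  exact RegularWreathProduct.ext h3 h4

/-- The central element of `Y`. -/
def zY : YY p P r := bz p (fun _ => (1 : ZMod p))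

theorem zY_ne_one : (zY : YY p P r) ≠ 1 := by
  intro h
  have h1 := congrArg (fun w : YY p P r => (w.left 1).toAdd) h
  exact one_ne_zero (α := ZMod p) h1

theorem zY_mem (hP : IsPGroup p P) (M : Subgroup (YY p P r)) [M.Normal] (hne : M ≠ ⊥) :
    zY ∈ M := mono_wr (isPGroup_SS hP) M hne

theorem zY_mem_LC (hP : IsPGroup p P) [Nontrivial P] {N : ℕ} (hN : N ≤ 2 * r) :
    (zY : YY p P r) ∈ LC (YY p P r) N := by
  apply zY_mem hP
  intro hbot
  -- otherwise every element has trivial right part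
  have h := right_eq_one hP hN (inl (1, bs (fun _ => Classical.choose (exists_ne (1 : P)))) :
    YY p P r) (by
      intro c hc
      rw [hbot, Subgroup.mem_bot] at hc
      rw [hc, mul_one, one_mul])
  have h1 := congrArg (fun s : SS p P r => s.2.left 1) h
  exact Classical.choose_spec (exists_ne (1 : P)) h1

/-- The quotient map onto `P`. -/
def toP : YY p P r →* P := (MonoidHom.fst P (TT p P r)).comp (rightHom : YY p P r →* SS p P r)

theorem toP_surjective : Function.Surjective (toP : YY p P r → P) := fun x => ⟨inl (x, 1), rfl⟩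

theorem toP_of_right {y : YY p P r} (h : y.right = 1) : toP y = 1 := by
  change y.right.1 = 1
  rw [h]; rfl

/-- The diagonal embedding of `P`. -/
def ofP : P →* YY p P r :=
  (inl : SS p P r →* YY p P r).comp ((MonoidHom.inr P (TT p P r)).comp
    ((bs : (EE p r → P) →* TT p P r).comp (MonoidHom.mk' (fun (x : P) (_ : EE p r) => x)
      (fun _ _ => rfl))))

theorem ofP_injective : Function.Injective (ofP : P → YY p P r) := by
  intro a b hab
  exact congrArg (fun w : YY p P r => w.right.2.left 1) hab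

theorem ofP_mem_LC {e : ℕ} (he : Nat.card P = p ^ e) (he1 : 1 ≤ e) {N : ℕ}
    (hN : N + (e - 1) ≤ 2 * r) (x : P) : (ofP x : YY p P r) ∈ LC (YY p P r) N := by
  have hx : x ^ (p ^ e) = 1 := by rw [← he]; exact pow_card_eq_one'
  let φ0 : ℤ →+ Additive P := zmultiplesHom (Additive P) (Additive.ofMul x)
  have hφ0 : φ0 ((p ^ e : ℕ) : ℤ) = 0 := by
    change ((p ^ e : ℕ) : ℤ) • (Additive.ofMul x) = 0
    rw [natCast_zsmul, ← ofMul_pow, hx]
    rfl
  let φ1 : ZMod (p ^ e) →+ Additive P := ZMod.lift (p ^ e) ⟨φ0, hφ0⟩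
  let ψ : Multiplicative (ZMod (p ^ e)) →* P := AddMonoidHom.toMultiplicativeLeft φ1
  have hψ : ψ (Multiplicative.ofAdd 1) = x := by
    have h1 : φ1 ((1 : ℤ) : ZMod (p ^ e)) = φ0 1 := ZMod.lift_coe _ _ 1
    rw [Int.cast_one] at h1
    have h2 : φ0 1 = Additive.ofMul x := by
      change (1 : ℤ) • (Additive.ofMul x) = _
      rw [one_smul]
    rw [h2] at h1
    exact h1
  have hpe : ((p : ZMod (p ^ e)) ^ e) = 0 := by
    have := ZMod.natCast_self (p ^ e)
    rwa [Nat.cast_pow] at this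
  have h1 := ind_mem_Wk (n := p ^ e) (Q := EE p r) hpe he1 ⊤ (i := 2 * r)
    (by rw [Nat.card_congr Subgroup.topEquiv.toEquiv]; exact card_EE)
  have h2 : bz (p ^ e) (ind (p ^ e) (⊤ : Subgroup (EE p r))) ∈
      LC ((Multiplicative (ZMod (p ^ e))) ≀ᵣ (EE p r)) N := by
    have h3 : N ≤ 2 * r - (e - 1) := by omega
    exact Wk_anti h3 h1
  have h3 := LC_map_mem ((inl : SS p P r →* YY p P r).comp ((MonoidHom.inr P (TT p P r)).comp
    (wrMap ψ))) h2
  have h4 : ((inl : SS p P r →* YY p P r).comp ((MonoidHom.inr P (TT p P r)).comp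
    (wrMap ψ))) (bz (p ^ e) (ind (p ^ e) (⊤ : Subgroup (EE p r)))) = ofP x := by
    change (inl (1, wrMap ψ (bz (p ^ e) (ind (p ^ e) (⊤ : Subgroup (EE p r))))) : YY p P r)
      = inl (1, bs (fun _ => x))
    congr 2
    refine RegularWreathProduct.ext ?_ rfl
    funext z
    change ψ (Multiplicative.ofAdd (ind (p ^ e) (⊤ : Subgroup (EE p r)) z)) = x
    rw [ind, if_pos (Subgroup.mem_top z), hψ]
  rw [h4] at h3
  exact h3

end Data

end Pool.Agent.Helper94.CoD
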