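import Mathlib
import Pool.Agent.Helper94.CoD.Sk2
import Pool.Agent.Helper94.CoD.YY

set_option autoImplicit false

open scoped commutatorElement
open Finset

namespace Pool.Agent.Helper94.CoD

open RegularWreathProduct

section General

theorem zpowers_normal_of_central {G : Type} [Group G] {c : G} (hc : ∀ g, g * c = c * g) :
    (Subgroup.zpowers c).Normal := by
  refine ⟨fun x hx g => ?_⟩
  obtain ⟨k, rfl⟩ := Subgroup.mem_zpowers_iff.1 hx
  have h : Commute g c := hc g
  have h2 : g * c ^ k = c ^ k * g := (h.zpow_right k)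
  rw [h2, mul_inv_cancel_right]
  exact Subgroup.zpow_mem_zpowers c k

theorem exists_max {F : Type} [Group F] (M0 : Subgroup F) [hM0 : M0.Normal] [M0.FiniteIndex]
    (c z : F) (hc : ∀ g, ⁅c, g⁆ ∈ M0) (hz : ∀ k : ℤ, (c ^ k)⁻¹ * z ∉ M0) :
    ∃ M : Subgroup F, M.Normal ∧ M0 ≤ M ∧ c ∈ M ∧ z ∉ M ∧
      ∀ M' : Subgroup F, M'.Normal → M ≤ M' → z ∉ M' → M' = M := by
  let S : Set (Subgroup F) := {M | M.Normal ∧ M0 ≤ M ∧ c ∈ M ∧ z ∉ M}
  have hcen : ∀ g : F ⧸ M0, g * (QuotientGroup.mk' M0 c) = (QuotientGroup.mk' M0 c) * g := by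
    intro g
    obtain ⟨g, rfl⟩ := QuotientGroup.mk'_surjective M0 g
    rw [← map_mul, ← map_mul]
    have h1 : QuotientGroup.mk' M0 ⁅c, g⁆ = 1 := (QuotientGroup.eq_one_iff _).2 (hc g)
    rw [map_commutatorElement, commutatorElement_eq_one_iff_mul_comm] at h1
    rw [map_mul, map_mul, h1]
  have hne : S.Nonempty := by
    have hn := zpowers_normal_of_central hcen
    refine ⟨(Subgroup.zpowers (QuotientGroup.mk' M0 c)).comap (QuotientGroup.mk' M0),
      hn.comap _, ?_, ?_, ?_⟩
    · intro x hx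
      rw [Subgroup.mem_comap]
      have : QuotientGroup.mk' M0 x = 1 := (QuotientGroup.eq_one_iff x).2 hx
      rw [this]
      exact Subgroup.one_mem _
    · exact Subgroup.mem_zpowers _
    · intro h
      obtain ⟨k, hk⟩ := Subgroup.mem_zpowers_iff.1 h
      rw [← map_zpow] at hk
      exact hz k (QuotientGroup.eq.1 hk)
  obtain ⟨M, hM, hmin⟩ := (measure (fun M : Subgroup F => M.index)).wf.has_min S hne
  refine ⟨M, hM.1, hM.2.1, hM.2.2.1, hM.2.2.2, fun M' hn hle hz' => ?_⟩
  by_contra hne'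
  have hfin : M.FiniteIndex := Subgroup.finiteIndex_of_le hM.2.1
  have hlt : M < M' := lt_of_le_of_ne hle (Ne.symm hne')
  exact hmin M' ⟨hn, hM.2.1.trans hle, hle hM.2.2.1, hz'⟩ (Subgroup.index_strictAnti hlt)

end General

section FI

variable {p : ℕ} [hp : Fact p.Prime] {K : Type} [Field K] [CharP K p]

theorem Gam_normal (s : ℕ) : (Gam p K s).Normal := by
  refine ⟨fun x hx g => ?_⟩
  have h1 : g * x * g⁻¹ = ⁅g, x⁆ * x := by rw [commutatorElement_def]; group
  rw [h1]
  refine Subgroup.mul_mem _ ?_ hx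
  have h2 := commutator_mem (mem_Gam_one g) hx
  exact Gam_mono (by omega) h2

theorem LC_le_Gam (n : ℕ) : LC (Gr p K) n ≤ Gam p K (n + 1) := by
  induction n with
  | zero => intro x _; exact mem_Gam_one x
  | succ n ih =>
    rw [LC, Subgroup.lowerCentralSeries_succ, Subgroup.commutator_le]
    intro a ha b _
    exact commutator_mem (ih ha) (mem_Gam_one b)

theorem Gam_finiteIndex [Finite K] (s : ℕ) : (Gam p K s).FiniteIndex := by
  have hinj : ∀ u v : Gr p K, (∀ i : Fin s, lcf i (val u) = lcf i (val v)) →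
      u⁻¹ * v ∈ Gam p K s := by
    intro u v h
    rw [mem_Gam]
    have h1 : val (u⁻¹ * v) - 1 = val u⁻¹ * (val v - val u) := by
      rw [val_mul, mul_sub]
      congr 1
      rw [← val_mul, inv_mul_cancel, val_one]
    rw [h1]
    refine Jk_mul_left _ fun n hn => ?_
    rw [map_sub, NF_val v n, NF_val u n, h ⟨n, hn⟩, sub_self]
  have hfin : Finite (Gr p K ⧸ Gam p K s) := by
    refine Finite.of_injective
      (fun q : Gr p K ⧸ Gam p K s => fun i : Fin s => lcf (i : ℕ) (val q.out)) ?_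
    intro q q' h
    have h1 := hinj q.out q'.out (fun i => congrFun h i)
    have h2 : (QuotientGroup.mk q.out : Gr p K ⧸ Gam p K s) = QuotientGroup.mk q'.out :=
      QuotientGroup.eq.2 h1
    rwa [QuotientGroup.out_eq', QuotientGroup.out_eq'] at h2
  exact Subgroup.finiteIndex_of_finite_quotient

end FI

end Pool.Agent.Helper94.CoD
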