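import Mathlib
import Pool.Agent.Helper94.CoD.Main

set_option autoImplicit false

open scoped commutatorElement
open Finset

namespace Pool.Agent.Helper94.CoD

open RegularWreathProduct

/-- The data from which the co-Dedekindian group is built. -/
structure Setup (p : ℕ) [Fact p.Prime] (K : Type) [Field K] [CharP K p] [Fintype K]
    (P : Type) [Group P] [Finite P] (r : ℕ) (F : Type) [Group F] where
  m : ℕ
  hK : Fintype.card K = p ^ (p ^ m)
  hm : 1 ≤ m
  h5 : 5 ≤ p ^ m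
  φ₁ : F →* Gr p K
  φ₂ : F →* YY p P r
  surj : Function.Surjective φ₂
  lead : ∀ β : K, ∃ v, ld 1 (φ₁ v) = β
  x0 : F
  hx1 : ld 1 (φ₁ x0) = 1
  hx2 : (φ₂ x0).right = 1
  hpow : ∀ y : YY p P r, y ^ (p ^ m) = 1
  hr : p ^ m ≤ 2 * r
  hP : IsPGroup p P

namespace Setup

variable {p : ℕ} [hp : Fact p.Prime] {K : Type} [Field K] [CharP K p] [Fintype K]
  {P : Type} [Group P] [Finite P] {r : ℕ} {F : Type} [Group F] (S : Setup p K P r F)

/-- The exponent. -/
def N : ℕ := p ^ S.m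

theorem hKN : Fintype.card K = p ^ S.N := S.hK

theorem N5 : 5 ≤ S.N := S.h5

/-- The kernel. -/
noncomputable def M0 : Subgroup F := (Gam p K (S.N + 1)).comap S.φ₁ ⊓ S.φ₂.ker

theorem mem_M0 {w : F} : w ∈ S.M0 ↔ S.φ₁ w ∈ Gam p K (S.N + 1) ∧ S.φ₂ w = 1 := Iff.rfl

instance M0_normal : (S.M0).Normal := by
  have h1 : (Gam p K (S.N + 1)).Normal := Gam_normal _
  have h2 : ((Gam p K (S.N + 1)).comap S.φ₁).Normal := h1.comap _
  have h3 : S.φ₂.ker.Normal := inferInstance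
  exact Subgroup.normal_inf_normal _ _

instance M0_finiteIndex : (S.M0).FiniteIndex := by
  have h1 : (Gam p K (S.N + 1)).FiniteIndex := Gam_finiteIndex _
  have h2 : ((Gam p K (S.N + 1)).comap S.φ₁).FiniteIndex := by
    rw [Subgroup.finiteIndex_iff, Subgroup.index_comap]
    have h : ((Gam p K (S.N + 1)).subgroupOf S.φ₁.range).FiniteIndex := inferInstance
    exact h.index_ne_zero
  have h3 : Finite (YY p P r) := inferInstance
  have h4 : Finite S.φ₂.range := inferInstance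
  have h5 : S.φ₂.ker.FiniteIndex := inferInstance
  exact inferInstanceAs ((Gam p K (S.N + 1)).comap S.φ₁ ⊓ S.φ₂.ker).FiniteIndex

/-- The central word. -/
def zw : F := S.x0 ^ S.N

theorem pow_N_mem (w : F) : S.φ₁ (w ^ S.N) ∈ Gam p K S.N := by
  rw [map_pow]
  have := pow_mem_Gam (mem_Gam_one (S.φ₁ w)) S.m
  rwa [one_mul] at this

theorem ld_pow_N (w : F) : ld S.N (S.φ₁ (w ^ S.N)) = nu p S.N (ld 1 (S.φ₁ w)) := by
  rw [map_pow]
  exact ld_pow (S.φ₁ w) S.m

theorem φ₂_pow_N (w : F) : S.φ₂ (w ^ S.N) = 1 := by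
  rw [map_pow]
  exact S.hpow _

theorem zw_mem : S.φ₁ S.zw ∈ Gam p K S.N := S.pow_N_mem _

theorem ld_zw : ld S.N (S.φ₁ S.zw) = 1 := by
  rw [zw, ld_pow_N, S.hx1, nu_one]

theorem φ₂_zw : S.φ₂ S.zw = 1 := S.φ₂_pow_N _

theorem N1 : 1 ≤ S.N := by have := S.N5; omega

omit [Fintype K] in
theorem ld_npow {s : ℕ} (hs : 1 ≤ s) {u : Gr p K} (hu : u ∈ Gam p K s) (k : ℕ) :
    ld s (u ^ k) = k * ld s u := by
  induction k with
  | zero => rw [pow_zero, ld_one hs]; simp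
  | succ k ih =>
    rw [pow_succ, ld_mul hs (Subgroup.pow_mem _ hu k) hu, ih]
    push_cast; ring

/-- An element on the top layer with trivial second coordinate is a power of `zw` mod `M0`. -/
theorem mem_M0_of_ld {w : F} {j : ℕ} (h1 : S.φ₁ w ∈ Gam p K S.N)
    (h2 : ld S.N (S.φ₁ w) = (j : K)) (h3 : S.φ₂ w = 1) : w * (S.zw ^ j)⁻¹ ∈ S.M0 := by
  rw [mem_M0]
  constructor
  · have h4 : S.φ₁ (w * (S.zw ^ j)⁻¹) ∈ Gam p K S.N := by
      rw [map_mul, map_inv, map_pow]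
      exact Subgroup.mul_mem _ h1 (Subgroup.inv_mem _ (Subgroup.pow_mem _ S.zw_mem j))
    rw [mem_Gam_succ S.N1 h4, map_mul, map_inv, map_pow,
      ld_mul S.N1 h1 (Subgroup.inv_mem _ (Subgroup.pow_mem _ S.zw_mem j)),
      ld_inv S.N1 (Subgroup.pow_mem _ S.zw_mem j), ld_npow S.N1 S.zw_mem, S.ld_zw, h2, mul_one,
      add_neg_cancel]
  · rw [map_mul, map_inv, map_pow, h3, S.φ₂_zw, one_pow, inv_one, mul_one]

theorem zw_comm (v : F) : ⁅S.zw, v⁆ ∈ S.M0 := by
  rw [mem_M0]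
  constructor
  · rw [map_commutatorElement]
    exact commutator_mem S.zw_mem (mem_Gam_one _)
  · rw [map_commutatorElement, S.φ₂_zw, commutatorElement_one_left]

theorem exists_wY [Nontrivial P] : ∃ w : F, S.φ₁ w ∈ Gam p K (S.N + 1) ∧ S.φ₂ w = zY := by
  have h1 : (zY : YY p P r) ∈ LC (YY p P r) S.N := zY_mem_LC S.hP S.hr
  rw [← LC_map_surj S.φ₂ S.surj] at h1
  obtain ⟨w, hw, hw2⟩ := h1
  exact ⟨w, LC_le_Gam _ (LC_map_mem S.φ₁ hw), hw2⟩

/-- The word for the central element of `Y`. -/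
noncomputable def wY [Nontrivial P] : F := Classical.choose S.exists_wY

theorem wY_mem [Nontrivial P] : S.φ₁ S.wY ∈ Gam p K (S.N + 1) :=
  (Classical.choose_spec S.exists_wY).1

theorem φ₂_wY [Nontrivial P] : S.φ₂ S.wY = zY := (Classical.choose_spec S.exists_wY).2

omit [Finite P] in
theorem zY_central (y : YY p P r) : (zY : YY p P r) * y = y * zY := by
  refine RegularWreathProduct.ext ?_ ?_
  · funext x
    simp only [mul_left, Pi.mul_apply]
    change (Multiplicative.ofAdd (1 : ZMod p)) * y.left ((1 : SS p P r)⁻¹ * x)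
      = y.left x * (Multiplicative.ofAdd (1 : ZMod p))
    rw [inv_one, one_mul, mul_comm]
  · simp only [mul_right]
    change 1 * y.right = y.right * 1
    rw [one_mul, mul_one]

theorem wY_comm [Nontrivial P] (v : F) : ⁅S.wY, v⁆ ∈ S.M0 := by
  rw [mem_M0]
  constructor
  · rw [map_commutatorElement]
    exact Gam_mono (by omega) (commutator_mem S.wY_mem (mem_Gam_one _))
  · rw [map_commutatorElement, S.φ₂_wY, commutatorElement_eq_one_iff_mul_comm]
    exact zY_central _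

theorem comm_mul_mem {M : Subgroup F} [hM : M.Normal] {a b v : F} (ha : ⁅a, v⁆ ∈ M)
    (hb : ⁅b, v⁆ ∈ M) : ⁅a * b, v⁆ ∈ M := by
  have h : ⁅a * b, v⁆ = (a * ⁅b, v⁆ * a⁻¹) * ⁅a, v⁆ := by
    simp only [commutatorElement_def]; group
  rw [h]
  exact M.mul_mem (hM.conj_mem _ hb _) ha

/-- The properties of the maximal normal subgroup. -/
structure IsMax [Nontrivial P] (M : Subgroup F) : Prop where
  normal : M.Normal
  le : S.M0 ≤ M
  hc : S.zw * S.wY ∈ M
  hz : S.zw ∉ M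
  max : ∀ M' : Subgroup F, M'.Normal → M ≤ M' → S.zw ∉ M' → M' = M

omit [Finite P] in
theorem zY_zpow_eq_one {k : ℤ} (h : (zY : YY p P r) ^ k = 1) : (p : ℤ) ∣ k := by
  have h1 := congrArg (fun w : YY p P r => (w.left 1).toAdd) h
  have h2 : (zY : YY p P r) = bs (fun _ => Multiplicative.ofAdd (1 : ZMod p)) := rfl
  rw [h2, ← map_zpow] at h1
  simp only [bs_left, Pi.pow_apply, toAdd_zpow, toAdd_ofAdd, one_left, Pi.one_apply,
    toAdd_one, zsmul_eq_mul, mul_one] at h1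
  exact (CharP.intCast_eq_zero_iff (ZMod p) p k).1 h1

theorem exists_isMax [Nontrivial P] : ∃ M, S.IsMax M := by
  obtain ⟨M, h1, h2, h3, h4, h5⟩ := exists_max S.M0 (S.zw * S.wY) S.zw
    (fun g => comm_mul_mem (S.zw_comm g) (S.wY_comm g)) (by
      intro k hk
      rw [mem_M0] at hk
      obtain ⟨hk1, hk2⟩ := hk
      rw [map_mul, map_inv, map_zpow, map_mul, S.φ₂_zw, S.φ₂_wY, one_mul, mul_one, inv_eq_one] at hk2
      obtain ⟨d, rfl⟩ := zY_zpow_eq_one hk2
      -- first coordinate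
      have h6 : S.φ₁ ((S.zw * S.wY) ^ ((p : ℤ) * d)) ∈ Gam p K (S.N + 1) := by
        rw [zpow_mul, zpow_natCast, map_zpow, map_pow]
        refine Subgroup.zpow_mem _ ?_ _
        have h7 : S.φ₁ (S.zw * S.wY) ∈ Gam p K S.N := by
          rw [map_mul]
          exact Subgroup.mul_mem _ S.zw_mem (Gam_mono (by omega) S.wY_mem)
        rw [mem_Gam_succ S.N1 (Subgroup.pow_mem _ h7 p), ld_npow S.N1 h7, CharP.cast_eq_zero,
          zero_mul]
      have h8 : S.φ₁ S.zw ∈ Gam p K (S.N + 1) := by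
        have h9 : S.φ₁ S.zw = S.φ₁ ((S.zw * S.wY) ^ ((p : ℤ) * d)) *
            S.φ₁ (((S.zw * S.wY) ^ ((p : ℤ) * d))⁻¹ * S.zw) := by
          rw [← map_mul, mul_inv_cancel_left]
        rw [h9]
        exact Subgroup.mul_mem _ h6 hk1
      rw [mem_Gam_succ S.N1 S.zw_mem, S.ld_zw] at h8
      exact one_ne_zero h8)
  exact ⟨M, h1, h2, h3, h4, h5⟩

section Max

variable [Nontrivial P] {S} {M : Subgroup F} (hM : S.IsMax M)

theorem comm_mem {M : Subgroup F} [hn : M.Normal] {u : F} (hu : u ∈ M) (v : F) : ⁅u, v⁆ ∈ M := by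
  have h : ⁅u, v⁆ = u * (v * u⁻¹ * v⁻¹) := by rw [commutatorElement_def]; group
  rw [h]
  exact M.mul_mem hu (hn.conj_mem _ (M.inv_mem hu) _)

include hM

theorem wY_notMem : S.wY ∉ M := by
  intro h
  apply hM.hz
  have h1 : S.zw = (S.zw * S.wY) * (S.wY)⁻¹ := by group
  rw [h1]
  exact M.mul_mem hM.hc (M.inv_mem h)

/-- (P2) -/
theorem P2 {u : F} (hu : u ∈ M) (h1 : S.φ₁ u ∈ Gam p K (S.N + 1)) : S.φ₂ u = 1 := by
  have hn1 : (Gam p K (S.N + 1)).Normal := Gam_normal _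
  have hn2 : ((Gam p K (S.N + 1)).comap S.φ₁).Normal := hn1.comap _
  have hn3 : M.Normal := hM.normal
  have hn4 : (M ⊓ (Gam p K (S.N + 1)).comap S.φ₁).Normal := Subgroup.normal_inf_normal _ _
  have hn5 : ((M ⊓ (Gam p K (S.N + 1)).comap S.φ₁).map S.φ₂).Normal := hn4.map _ S.surj
  by_contra hne
  have h2 : (zY : YY p P r) ∈ (M ⊓ (Gam p K (S.N + 1)).comap S.φ₁).map S.φ₂ := by
    apply zY_mem S.hP
    intro hbot
    apply hne
    have h3 : S.φ₂ u ∈ (M ⊓ (Gam p K (S.N + 1)).comap S.φ₁).map S.φ₂ :=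
      Subgroup.mem_map_of_mem _ ⟨hu, h1⟩
    rw [hbot, Subgroup.mem_bot] at h3
    exact h3
  obtain ⟨w, ⟨hw1, hw2⟩, hw3⟩ := h2
  apply wY_notMem hM
  have h4 : w⁻¹ * S.wY ∈ S.M0 := by
    rw [mem_M0]
    constructor
    · rw [map_mul, map_inv]
      exact Subgroup.mul_mem _ (Subgroup.inv_mem _ hw2) S.wY_mem
    · rw [map_mul, map_inv, hw3, S.φ₂_wY, inv_mul_cancel]
  have h5 : S.wY = w * (w⁻¹ * S.wY) := by group
  rw [h5]
  exact M.mul_mem hw1 (hM.le h4)

/-- (P3), one step. -/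
theorem P3_step {s : ℕ} (hs : 1 ≤ s) : ∀ t, s + t + 1 = S.N → ∀ u ∈ M, S.φ₂ u = 1 →
    S.φ₁ u ∈ Gam p K s → S.φ₁ u ∈ Gam p K (s + 1) := by
  intro t
  induction t generalizing s with
  | zero =>
    intro hst u hu hu2 hus
    have hn : M.Normal := hM.normal
    rw [mem_Gam_succ hs hus]
    by_contra hα
    set α := ld s (S.φ₁ u) with hα'
    have hpN : p ∣ S.N := dvd_pow_self p (by have := S.hm; omega)
    obtain ⟨γ, hγ⟩ := artin_schreier S.hKN hpN (by have := S.N5; omega)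
    obtain ⟨v, hv⟩ := S.lead ((γ / α) ^ p)
    have h1 : S.φ₁ ⁅u, v⁆ ∈ Gam p K (s + 1) := by
      rw [map_commutatorElement]
      exact commutator_mem hus (mem_Gam_one _)
    have h2 : ld (s + 1) (S.φ₁ ⁅u, v⁆) = 1 := by
      rw [map_commutatorElement, ld_commutator hs le_rfl hus (mem_Gam_one _), hv, ← hα',
        ← pow_mul, ← pow_succ', pow_one]
      have h3 : s + 1 = S.N := hst
      rw [h3, pow_card_N S.hKN, div_pow, mul_div_cancel₀ _ hα,
        div_mul_cancel₀ _ (pow_ne_zero p hα), hγ]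
    have h3 : s + 1 = S.N := hst
    rw [h3] at h1 h2
    have h4 : S.φ₂ ⁅u, v⁆ = 1 := by
      rw [map_commutatorElement, hu2, commutatorElement_one_left]
    have h5 := S.mem_M0_of_ld (j := 1) h1 (by rw [h2]; simp) h4
    rw [pow_one] at h5
    apply hM.hz
    have h6 : S.zw = (⁅u, v⁆ * S.zw⁻¹)⁻¹ * ⁅u, v⁆ := by group
    rw [h6]
    exact M.mul_mem (M.inv_mem (hM.le h5)) (comm_mem hu v)
  | succ t ih =>
    intro hst u hu hu2 hus
    have hn : M.Normal := hM.normal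
    rw [mem_Gam_succ hs hus]
    by_contra hα
    set α := ld s (S.φ₁ u) with hα'
    have hkey : ∀ v, α * (ld 1 (S.φ₁ v)) ^ (p ^ s) - ld 1 (S.φ₁ v) * α ^ p = 0 := by
      intro v
      have h1 : S.φ₁ ⁅u, v⁆ ∈ Gam p K (s + 1) := by
        rw [map_commutatorElement]
        exact commutator_mem hus (mem_Gam_one _)
      have h4 : S.φ₂ ⁅u, v⁆ = 1 := by
        rw [map_commutatorElement, hu2, commutatorElement_one_left]
      have h2 := ih (s := s + 1) (by omega) (by omega) ⁅u, v⁆ (comm_mem hu v) h4 h1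
      rw [mem_Gam_succ (by omega) h1, map_commutatorElement,
        ld_commutator hs le_rfl hus (mem_Gam_one _), pow_one] at h2
      exact h2
    have h1 : α = α ^ p := by
      have := hkey S.x0
      rw [S.hx1, one_pow, mul_one, one_mul, sub_eq_zero] at this
      exact this
    obtain ⟨β, hβ⟩ := exists_not_fixed S.hKN hs (by omega)
    obtain ⟨v, hv⟩ := S.lead (β ^ p - β)
    have h2 := hkey v
    rw [hv, ← h1, mul_comm (β ^ p - β) α, ← mul_sub, mul_eq_zero] at h2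
    rcases h2 with h2 | h2
    · exact hα h2
    · exact hβ (sub_eq_zero.1 h2)

/-- (P3) -/
theorem P3 {u : F} (hu : u ∈ M) (h2 : S.φ₂ u = 1) : S.φ₁ u ∈ Gam p K S.N := by
  have h : ∀ s, 1 ≤ s → s ≤ S.N → S.φ₁ u ∈ Gam p K s := by
    intro s hs
    induction s, hs using Nat.le_induction with
    | base => intro _; exact mem_Gam_one _
    | succ s hs ih =>
      intro hsN
      exact P3_step hM hs (S.N - s - 1) (by omega) u hu h2 (ih (by omega))
  exact h S.N S.N1 le_rfl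

/-- (P4) -/
theorem P4 {w : F} (hw : ∀ v, ⁅w, v⁆ ∈ M) : (S.φ₂ w).right = 1 := by
  apply right_eq_one S.hP S.hr
  intro c hc
  have hc' : c ∈ LC (YY p P r) S.N := hc
  rw [← LC_map_surj S.φ₂ S.surj] at hc'
  obtain ⟨v, hv, rfl⟩ := hc'
  have h1 : S.φ₁ ⁅w, v⁆ ∈ Gam p K (S.N + 1) := by
    rw [map_commutatorElement]
    exact Gam_mono (by omega)
      (commutator_mem (mem_Gam_one (S.φ₁ w)) (LC_le_Gam _ (LC_map_mem S.φ₁ hv)))
  have h2 := P2 hM (hw v) h1
  rw [map_commutatorElement, commutatorElement_eq_one_iff_mul_comm] at h2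
  exact h2

omit [Field K] [CharP K p] [Fintype K] [Finite P] [Group F] [Nontrivial P] hM in
theorem comm_bs {a b : YY p P r} (ha : a.right = 1) (hb : b.right = 1) : ⁅a, b⁆ = 1 := by
  rw [eq_bs_of_right ha, eq_bs_of_right hb, commutatorElement_eq_one_iff_mul_comm,
    ← map_mul, ← map_mul, mul_comm]

/-- (P5), one step. -/
theorem P5_step {w : F} (hw : ∀ v, ⁅w, v⁆ ∈ M) {s : ℕ} (hs : 1 ≤ s) (hsN : s + 2 < S.N)
    (hws : S.φ₁ w ∈ Gam p K s) : S.φ₁ w ∈ Gam p K (s + 1) := by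
  have hr := P4 hM hw
  rw [mem_Gam_succ hs hws]
  by_contra hα
  set α := ld s (S.φ₁ w) with hα'
  -- first commutator
  have h1 : α ^ p = α := by
    have h2 : S.φ₂ ⁅w, S.x0⁆ = 1 := by
      rw [map_commutatorElement]; exact comm_bs hr S.hx2
    have h3 := P3 hM (hw S.x0) h2
    have h4 : S.φ₁ ⁅w, S.x0⁆ ∈ Gam p K (s + 1) := Gam_mono (by omega) h3
    have h5 : S.φ₁ ⁅w, S.x0⁆ ∈ Gam p K (s + 1 + 1) := Gam_mono (by omega) h3
    rw [mem_Gam_succ (by omega) h4, map_commutatorElement,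
      ld_commutator hs le_rfl hws (mem_Gam_one _), S.hx1, one_pow, mul_one, one_mul,
      pow_one, sub_eq_zero] at h5
    exact h5.symm
  obtain ⟨β, hβ⟩ := exists_not_fixed S.hKN hs (by omega)
  obtain ⟨v, hv⟩ := S.lead β
  have h6 : S.φ₁ ⁅S.x0, v⁆ ∈ Gam p K 2 := by
    rw [map_commutatorElement]
    exact commutator_mem (mem_Gam_one _) (mem_Gam_one _)
  have h7 : ld 2 (S.φ₁ ⁅S.x0, v⁆) = β ^ p - β := by
    rw [map_commutatorElement]
    have := ld_commutator (s := 1) (r := 1) le_rfl le_rfl (mem_Gam_one (S.φ₁ S.x0))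
      (mem_Gam_one (S.φ₁ v))
    rw [S.hx1, hv, one_pow, one_mul, mul_one, pow_one] at this
    exact this
  have h8 : (S.φ₂ ⁅S.x0, v⁆).right = 1 := by
    rw [map_commutatorElement]
    change (rightHom : YY p P r →* SS p P r) ⁅S.φ₂ S.x0, S.φ₂ v⁆ = 1
    rw [map_commutatorElement]
    have : (rightHom : YY p P r →* SS p P r) (S.φ₂ S.x0) = 1 := S.hx2
    rw [this, commutatorElement_one_left]
  have h9 : S.φ₂ ⁅w, ⁅S.x0, v⁆⁆ = 1 := by
    rw [map_commutatorElement]; exact comm_bs hr h8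
  have h10 := P3 hM (hw ⁅S.x0, v⁆) h9
  have h11 : S.φ₁ ⁅w, ⁅S.x0, v⁆⁆ ∈ Gam p K (s + 2) := Gam_mono (by omega) h10
  have h12 : S.φ₁ ⁅w, ⁅S.x0, v⁆⁆ ∈ Gam p K (s + 2 + 1) := Gam_mono (by omega) h10
  rw [mem_Gam_succ (by omega) h11, map_commutatorElement,
    ld_commutator hs (by norm_num) hws h6, h7, ← hα'] at h12
  have h13 : α ^ (p ^ 2) = α := by
    rw [pow_two, pow_mul, h1, h1]
  rw [h13, mul_comm (β ^ p - β) α, ← mul_sub, mul_eq_zero] at h12
  rcases h12 with h | h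
  · exact hα h
  · exact hβ (sub_eq_zero.1 h)

/-- (P5) -/
theorem P5 {w : F} (hw : ∀ v, ⁅w, v⁆ ∈ M) : S.φ₁ w ∈ Gam p K (S.N - 2) := by
  have h : ∀ s, 1 ≤ s → s + 2 ≤ S.N → S.φ₁ w ∈ Gam p K s := by
    intro s hs
    induction s, hs using Nat.le_induction with
    | base => intro _; exact mem_Gam_one _
    | succ s hs ih =>
      intro hsN
      exact P5_step hM hw hs (by omega) (ih (by omega))
  have := S.N5
  exact h (S.N - 2) (by omega) (by omega)

/-- (P6) -/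
theorem P6 {w : F} (hw : ∀ v, ⁅w, v⁆ ∈ M) : w ^ p ∈ S.M0 := by
  rw [mem_M0]
  constructor
  · rw [map_pow]
    have h1 := pow_mem_Gam (P5 hM hw) 1
    rw [pow_one] at h1
    refine Gam_mono ?_ h1
    have h2 := S.N5
    have h3 := hp.out.two_le
    calc S.N + 1 ≤ (S.N - 2) * 2 := by omega
      _ ≤ (S.N - 2) * p := Nat.mul_le_mul_left _ h3
  · rw [map_pow, eq_bs_of_right (P4 hM hw), ← map_pow]
    have h1 : (S.φ₂ w).left ^ p = 1 := by
      funext x
      rw [Pi.pow_apply]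
      apply Multiplicative.toAdd.injective
      rw [toAdd_pow, nsmul_eq_mul, CharP.cast_eq_zero, zero_mul]
      rfl
    rw [h1, map_one]

end Max

end Setup

end Pool.Agent.Helper94.CoD
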