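import Mathlib
import Pool.Agent.Helper94.CoD.Core

set_option autoImplicit false

open scoped commutatorElement
open Finset

namespace Pool.Agent.Helper94.CoD

open RegularWreathProduct

namespace Setup

variable {p : ℕ} [hp : Fact p.Prime] {K : Type} [Field K] [CharP K p] [Fintype K]
  {P : Type} [Group P] [Finite P] {r : ℕ} {F : Type} [Group F] (S : Setup p K P r F)

/-- Homomorphisms to groups of exponent `p` factor through the first leading coefficient. -/
def HomProp : Prop := ∀ (C : Type) [Group C], (∀ a b : C, a * b = b * a) →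
  (∀ c : C, c ^ p = 1) → ∀ k : F →* C, ∀ x, ld 1 (S.φ₁ x) = 0 → k x = 1

section Max

variable [Nontrivial P] {S} {M : Subgroup F} [hMn : M.Normal] (hM : S.IsMax M)

theorem mk_central_iff {w : F} : (∀ g : F ⧸ M, g * QuotientGroup.mk' M w
    = QuotientGroup.mk' M w * g) ↔ ∀ v, ⁅w, v⁆ ∈ M := by
  constructor
  · intro h v
    rw [← QuotientGroup.eq_one_iff]
    change QuotientGroup.mk' M ⁅w, v⁆ = 1
    rw [map_commutatorElement, commutatorElement_eq_one_iff_mul_comm]
    exact (h _).symm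
  · intro h g
    obtain ⟨v, rfl⟩ := QuotientGroup.mk'_surjective M g
    have h1 : QuotientGroup.mk' M ⁅w, v⁆ = 1 := (QuotientGroup.eq_one_iff _).2 (h v)
    rw [map_commutatorElement, commutatorElement_eq_one_iff_mul_comm] at h1
    exact h1.symm

theorem mk_eq_one {w : F} : QuotientGroup.mk' M w = 1 ↔ w ∈ M := QuotientGroup.eq_one_iff w

include hM

theorem zw_central : ∀ g : F ⧸ M, g * QuotientGroup.mk' M S.zw = QuotientGroup.mk' M S.zw * g :=
  mk_central_iff.2 fun v => hM.le (S.zw_comm v)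

theorem zbar_ne : QuotientGroup.mk' M S.zw ≠ 1 := fun h => hM.hz (mk_eq_one.1 h)

theorem zbar_pow : (QuotientGroup.mk' M S.zw) ^ p = 1 := by
  rw [← map_pow, mk_eq_one]
  exact hM.le (P6 hM fun v => hM.le (S.zw_comm v))

theorem orderOf_zbar : orderOf (QuotientGroup.mk' M S.zw) = p :=
  orderOf_eq_prime (zbar_pow hM) (zbar_ne hM)

theorem P7 {w : F} (hw : ∀ v, ⁅w, v⁆ ∈ M) (hwM : w ∉ M) :
    QuotientGroup.mk' M S.zw ∈ Subgroup.zpowers (QuotientGroup.mk' M w) := by
  have hn := zpowers_normal_of_central (mk_central_iff.2 hw)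
  by_contra hne
  have h1 := hM.max ((Subgroup.zpowers (QuotientGroup.mk' M w)).comap (QuotientGroup.mk' M))
    (hn.comap _) (by
      intro x hx
      rw [Subgroup.mem_comap, mk_eq_one.2 hx]
      exact Subgroup.one_mem _) hne
  apply hwM
  rw [← h1]
  exact Subgroup.mem_zpowers _

theorem center_eq : Subgroup.center (F ⧸ M) = Subgroup.zpowers (QuotientGroup.mk' M S.zw) := by
  apply le_antisymm
  · intro g hg
    obtain ⟨w, rfl⟩ := QuotientGroup.mk'_surjective M g
    have hw : ∀ v, ⁅w, v⁆ ∈ M := mk_central_iff.1 (Subgroup.mem_center_iff.1 hg)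
    by_cases hwM : w ∈ M
    · rw [mk_eq_one.2 hwM]; exact Subgroup.one_mem _
    · have h1 := P7 hM hw hwM
      have h2 : (QuotientGroup.mk' M w) ^ p = 1 := by
        rw [← map_pow, mk_eq_one]; exact hM.le (P6 hM hw)
      have h3 : orderOf (QuotientGroup.mk' M w) = p :=
        orderOf_eq_prime h2 (fun h => hwM (mk_eq_one.1 h))
      have h4 : Nat.card (Subgroup.zpowers (QuotientGroup.mk' M w)) = p := by
        rw [Nat.card_zpowers, h3]
      have h5 : Nat.card (Subgroup.zpowers (QuotientGroup.mk' M S.zw)) = p := by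
        rw [Nat.card_zpowers, orderOf_zbar hM]
      have h6 : Subgroup.zpowers (QuotientGroup.mk' M S.zw)
          ≤ Subgroup.zpowers (QuotientGroup.mk' M w) := Subgroup.zpowers_le.2 h1
      have hfin : Finite (Subgroup.zpowers (QuotientGroup.mk' M w)) :=
        Nat.finite_of_card_ne_zero (by rw [h4]; exact hp.out.ne_zero)
      have h7 := Subgroup.eq_of_le_of_card_ge h6 (by rw [h4, h5])
      rw [h7]
      exact Subgroup.mem_zpowers _
  · rw [Subgroup.zpowers_le, Subgroup.mem_center_iff]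
    exact zw_central hM

theorem card_center : Nat.card (Subgroup.center (F ⧸ M)) = p := by
  rw [center_eq hM, Nat.card_zpowers, orderOf_zbar hM]

/-- (P10) -/
theorem zbar_mem {x : F} (hx : ld 1 (S.φ₁ x) ≠ 0) :
    QuotientGroup.mk' M S.zw ∈ Subgroup.zpowers (QuotientGroup.mk' M x) := by
  obtain ⟨j, hj, hpj⟩ := exists_nat_nu S.hKN hx
  have h1 := S.mem_M0_of_ld (j := j) (S.pow_N_mem x) (by rw [S.ld_pow_N, hj]) (S.φ₂_pow_N x)
  have h2 := hM.le h1
  rw [← mk_eq_one, map_mul, map_inv, mul_inv_eq_one, map_pow, map_pow] at h2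
  have hcop : Nat.Coprime j p := ((Nat.Prime.coprime_iff_not_dvd hp.out).2 hpj).symm
  obtain ⟨k, hk⟩ := exists_pow_eq_self_of_coprime (x := QuotientGroup.mk' M S.zw)
    (n := j) (by rw [orderOf_zbar hM]; exact hcop)
  rw [← hk, ← h2]
  exact Subgroup.pow_mem _ (Subgroup.pow_mem _ (Subgroup.mem_zpowers _) _) _

theorem coDed [Finite (F ⧸ M)] (hom : S.HomProp) (α : (F ⧸ M) ≃* (F ⧸ M))
    (hα : ∀ g, g⁻¹ * α g ∈ Subgroup.center (F ⧸ M)) (U : Subgroup (F ⧸ M)) :
    U.map α.toMonoidHom = U := by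
  let h : (F ⧸ M) →* Subgroup.center (F ⧸ M) :=
    MonoidHom.mk' (fun g => ⟨g⁻¹ * α g, hα g⟩) (by
      intro a b
      apply Subtype.ext
      change (a * b)⁻¹ * α (a * b) = (a⁻¹ * α a) * (b⁻¹ * α b)
      have hc := Subgroup.mem_center_iff.1 (hα a) b⁻¹
      calc (a * b)⁻¹ * α (a * b) = b⁻¹ * (a⁻¹ * α a) * α b := by
            rw [map_mul, mul_inv_rev]; group
        _ = (a⁻¹ * α a) * b⁻¹ * α b := by rw [hc]
        _ = _ := by rw [mul_assoc])
  have hexp : ∀ c : Subgroup.center (F ⧸ M), c ^ p = 1 := by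
    intro c
    rw [← card_center hM]
    exact pow_card_eq_one'
  have hle : U.map α.toMonoidHom ≤ U := by
    rintro _ ⟨g, hg, rfl⟩
    obtain ⟨x, rfl⟩ := QuotientGroup.mk'_surjective M g
    have h1 : α (QuotientGroup.mk' M x) = QuotientGroup.mk' M x * (h (QuotientGroup.mk' M x)) := by
      change _ = QuotientGroup.mk' M x * ((QuotientGroup.mk' M x)⁻¹ * α (QuotientGroup.mk' M x))
      rw [mul_inv_cancel_left]
    change α (QuotientGroup.mk' M x) ∈ U
    rw [h1]
    refine U.mul_mem hg ?_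
    by_cases hx : ld 1 (S.φ₁ x) = 0
    · have h2 := hom (Subgroup.center (F ⧸ M))
        (fun a b => Subtype.ext (Subgroup.mem_center_iff.1 b.2 a)) hexp
        (h.comp (QuotientGroup.mk' M)) x hx
      have h3 : h (QuotientGroup.mk' M x) = 1 := h2
      rw [h3]
      exact U.one_mem
    · have h2 := zbar_mem hM hx
      have h3 : (h (QuotientGroup.mk' M x) : F ⧸ M) ∈
          Subgroup.zpowers (QuotientGroup.mk' M S.zw) := by
        rw [← center_eq hM]
        exact (h (QuotientGroup.mk' M x)).2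
      have h4 : Subgroup.zpowers (QuotientGroup.mk' M S.zw) ≤ U :=
        (Subgroup.zpowers_le.2 h2).trans (Subgroup.zpowers_le.2 hg)
      exact h4 h3
  apply Subgroup.eq_of_le_of_card_ge hle
  have : Nat.card (U.map α.toMonoidHom) = Nat.card U :=
    (Nat.card_congr (U.equivMapOfInjective α.toMonoidHom α.injective).toEquiv).symm
  rw [this]

omit hMn in
theorem finite_quot : Finite (F ⧸ M) := by
  have : M.FiniteIndex := Subgroup.finiteIndex_of_le hM.le
  infer_instance

theorem isPGroup_quot : IsPGroup p (F ⧸ M) := by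
  intro g
  obtain ⟨x, rfl⟩ := QuotientGroup.mk'_surjective M g
  refine ⟨S.m + 1, ?_⟩
  rw [← map_pow, mk_eq_one]
  apply hM.le
  rw [mem_M0]
  constructor
  · rw [map_pow]
    have h1 := pow_mem_Gam (mem_Gam_one (S.φ₁ x)) (S.m + 1)
    refine Gam_mono ?_ h1
    rw [one_mul, pow_succ]
    have h2 := hp.out.two_le
    have h3 := S.N5
    have h4 : S.N * 2 ≤ p ^ S.m * p := Nat.mul_le_mul le_rfl h2
    omega
  · rw [map_pow, pow_succ p S.m, pow_mul, S.hpow, one_pow]

/-- Elements of `M` have trivial first leading coefficient. -/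
theorem ld_one_of_mem {w : F} (hw : w ∈ M) : ld 1 (S.φ₁ w) = 0 := by
  have h1 := P5 hM (fun v => comm_mem hw v)
  have h5 := S.N5
  exact (mem_Gam_succ le_rfl (mem_Gam_one _)).1 (Gam_mono (by omega) h1)

theorem nonabelian : ∃ a b : F ⧸ M, a * b ≠ b * a := by
  have h5 := S.N5
  obtain ⟨β, hβ⟩ := exists_not_fixed S.hKN (s := 1) le_rfl (by omega)
  have hβ2 : β ^ p - β ≠ 0 := by
    intro h0
    apply hβ
    rw [h0, zero_pow (pow_ne_zero _ hp.out.ne_zero)]
  obtain ⟨v, hv⟩ := S.lead β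
  refine ⟨QuotientGroup.mk' M S.x0, QuotientGroup.mk' M v, fun h => ?_⟩
  rw [← commutatorElement_eq_one_iff_mul_comm, ← map_commutatorElement, mk_eq_one] at h
  have h1 := P5 hM (fun v => comm_mem h v)
  have h2 : S.φ₁ ⁅S.x0, v⁆ ∈ Gam p K 2 := by
    rw [map_commutatorElement]
    exact commutator_mem (mem_Gam_one _) (mem_Gam_one _)
  have h3 : S.φ₁ ⁅S.x0, v⁆ ∈ Gam p K (2 + 1) := Gam_mono (by omega) h1
  rw [mem_Gam_succ (by norm_num) h2, map_commutatorElement] at h3
  have h4 := ld_commutator (s := 1) (r := 1) le_rfl le_rfl (mem_Gam_one (S.φ₁ S.x0))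
      (mem_Gam_one (S.φ₁ v))
  rw [S.hx1, hv, one_pow, one_mul, mul_one, pow_one] at h4
  exact hβ2 (h4.symm.trans h3)

end Max

end Setup

end Pool.Agent.Helper94.CoD
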