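import Mathlib
import Pool.Agent.Helper94.CoD.Fin

set_option autoImplicit false

open scoped commutatorElement
open Finset

namespace Pool.Agent.Helper94.CoD

open RegularWreathProduct

/-- Homomorphism from the cyclic group of order `n` with prescribed image of the generator. -/
noncomputable def cyc {G : Type} [Group G] (n : ℕ) (x : G) (hx : x ^ n = 1) :
    Multiplicative (ZMod n) →* G :=
  AddMonoidHom.toMultiplicativeLeft (ZMod.lift n ⟨zmultiplesHom (Additive G) (Additive.ofMul x), by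
    change ((n : ℕ) : ℤ) • (Additive.ofMul x) = 0
    rw [natCast_zsmul, ← ofMul_pow, hx]
    rfl⟩)

theorem cyc_one {G : Type} [Group G] (n : ℕ) (x : G) (hx : x ^ n = 1) :
    cyc n x hx (Multiplicative.ofAdd 1) = x := by
  have h1 : ZMod.lift n ⟨zmultiplesHom (Additive G) (Additive.ofMul x), by
    change ((n : ℕ) : ℤ) • (Additive.ofMul x) = 0
    rw [natCast_zsmul, ← ofMul_pow, hx]
    rfl⟩ ((1 : ℤ) : ZMod n) = zmultiplesHom (Additive G) (Additive.ofMul x) 1 :=
    ZMod.lift_coe _ _ 1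
  rw [Int.cast_one] at h1
  have h2 : zmultiplesHom (Additive G) (Additive.ofMul x) 1 = Additive.ofMul x := by
    change (1 : ℤ) • (Additive.ofMul x) = _
    rw [one_smul]
  rw [h2] at h1
  exact h1

theorem cyc_mem {G : Type} [Group G] (n : ℕ) [NeZero n] (x : G) (hx : x ^ n = 1)
    (a : Multiplicative (ZMod n)) : cyc n x hx a ∈ Subgroup.zpowers x := by
  have h : Subgroup.closure {Multiplicative.ofAdd (1 : ZMod n)} ≤
      (Subgroup.zpowers x).comap (cyc n x hx) := by
    rw [Subgroup.closure_le]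
    rintro _ rfl
    change cyc n x hx (Multiplicative.ofAdd 1) ∈ Subgroup.zpowers x
    rw [cyc_one]
    exact Subgroup.mem_zpowers x
  rw [closure_ofAdd_one] at h
  exact h (Subgroup.mem_top a)

theorem exists_central_aut {p : ℕ} [hp : Fact p.Prime] {G : Type} [Group G] [Finite G] {z : G}
    (hz : ∀ g, g * z = z * g) (hzp : z ^ p = 1) (hz1 : z ≠ 1)
    (f : G →* Multiplicative (ZMod p)) (hfz : f z = 1) {x : G}
    (hx : f x = Multiplicative.ofAdd 1) :
    ∃ α : G ≃* G, (∀ g, g⁻¹ * α g ∈ Subgroup.center G) ∧ α ≠ MulEquiv.refl G := by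
  have hle : Subgroup.zpowers z ≤ Subgroup.center G := by
    rw [Subgroup.zpowers_le, Subgroup.mem_center_iff]; exact hz
  have hτ : ∀ a, cyc p z hzp a ∈ Subgroup.center G := fun a => hle (cyc_mem p z hzp a)
  let β : G →* G := MonoidHom.mk' (fun g => g * cyc p z hzp (f g)) (by
    intro a b
    have h := Subgroup.mem_center_iff.1 (hτ (f a)) b
    change a * b * cyc p z hzp (f (a * b)) = (a * cyc p z hzp (f a)) * (b * cyc p z hzp (f b))
    rw [map_mul, map_mul]
    calc a * b * (cyc p z hzp (f a) * cyc p z hzp (f b))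
        = a * (b * cyc p z hzp (f a)) * cyc p z hzp (f b) := by group
      _ = a * (cyc p z hzp (f a) * b) * cyc p z hzp (f b) := by rw [h]
      _ = _ := by group)
  have hβ : ∀ g, β g = g * cyc p z hzp (f g) := fun g => rfl
  have hinj : Function.Injective β := by
    rw [injective_iff_map_eq_one]
    intro g hg
    rw [hβ] at hg
    have h1 : g = (cyc p z hzp (f g))⁻¹ := eq_inv_of_mul_eq_one_left hg
    have h2 : g ∈ Subgroup.zpowers z := by
      rw [h1]; exact Subgroup.inv_mem _ (cyc_mem p z hzp _)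
    obtain ⟨k, hk⟩ := Subgroup.mem_zpowers_iff.1 h2
    have h3 : f g = 1 := by rw [← hk, map_zpow, hfz, one_zpow]
    rw [h3, map_one, mul_one] at hg
    exact hg
  have hbij : Function.Bijective β := Finite.injective_iff_bijective.1 hinj
  refine ⟨MulEquiv.ofBijective β hbij, fun g => ?_, fun h => ?_⟩
  · change g⁻¹ * β g ∈ _
    rw [hβ, inv_mul_cancel_left]
    exact hτ _
  · have h1 : β x = x := by
      have := DFunLike.congr_fun h x
      exact this
    rw [hβ, hx, cyc_one, mul_eq_left] at h1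
    exact hz1 h1

namespace Setup

variable {p : ℕ} [hp : Fact p.Prime] {K : Type} [Field K] [CharP K p] [Fintype K]
  {P : Type} [Group P] [Finite P] {r : ℕ} {F : Type} [Group F] {S : Setup p K P r F}
  [Nontrivial P] {M : Subgroup F} [hMn : M.Normal] (hM : S.IsMax M)

/-- The first leading coefficient as a homomorphism. -/
noncomputable def lam (S : Setup p K P r F) : F →* Multiplicative K :=
  MonoidHom.mk' (fun x => Multiplicative.ofAdd (ld 1 (S.φ₁ x))) (by
    intro a b
    rw [map_mul, ld_mul le_rfl (mem_Gam_one _) (mem_Gam_one _), ofAdd_add])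

include hM

theorem exists_aut (L : K →+ ZMod p) (hL : L 1 = 1) :
    ∃ α : (F ⧸ M) ≃* (F ⧸ M), (∀ g, g⁻¹ * α g ∈ Subgroup.center (F ⧸ M)) ∧
      α ≠ MulEquiv.refl _ := by
  have := finite_quot hM
  let f0 : F →* Multiplicative (ZMod p) := (AddMonoidHom.toMultiplicative L).comp (lam S)
  have hf0 : ∀ x, f0 x = Multiplicative.ofAdd (L (ld 1 (S.φ₁ x))) := fun x => rfl
  have hker : ∀ x ∈ M, f0 x = 1 := by
    intro x hx
    rw [hf0, ld_one_of_mem hM hx, map_zero, ofAdd_zero]
  refine exists_central_aut (zw_central hM) (zbar_pow hM) (zbar_ne hM)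
    (QuotientGroup.lift M f0 hker) ?_ (x := QuotientGroup.mk' M S.x0) ?_
  · change f0 S.zw = 1
    have h5 := S.N5
    have h1 : ld 1 (S.φ₁ S.zw) = 0 :=
      (mem_Gam_succ le_rfl (mem_Gam_one _)).1 (Gam_mono (by omega) S.zw_mem)
    rw [hf0, h1, map_zero, ofAdd_zero]
  · change f0 S.x0 = _
    rw [hf0, S.hx1, hL]

theorem exists_surj : ∃ f : (F ⧸ M) →* P, Function.Surjective f := by
  have hker : ∀ x ∈ M, (toP.comp S.φ₂) x = 1 := by
    intro x hx
    exact toP_of_right (P4 hM (fun v => comm_mem hx v))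
  refine ⟨QuotientGroup.lift M (toP.comp S.φ₂) hker, fun x => ?_⟩
  obtain ⟨y, hy⟩ := toP_surjective (p := p) (r := r) x
  obtain ⟨w, hw⟩ := S.surj y
  refine ⟨QuotientGroup.mk' M w, ?_⟩
  change toP (S.φ₂ w) = x
  rw [hw, hy]

theorem exists_inj (hof : ∀ x : P, (ofP x : YY p P r) ∈ LC (YY p P r) S.N) :
    ∃ f : P →* (F ⧸ M), Function.Injective f := by
  have hex : ∀ x : P, ∃ w ∈ LC F S.N, S.φ₂ w = ofP x := by
    intro x
    have h := hof x
    rw [← LC_map_surj S.φ₂ S.surj] at h
    obtain ⟨w, hw, hw2⟩ := h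
    exact ⟨w, hw, hw2⟩
  choose c hc1 hc2 using hex
  have hφ : ∀ w ∈ LC F S.N, S.φ₁ w ∈ Gam p K (S.N + 1) := fun w hw =>
    LC_le_Gam _ (LC_map_mem S.φ₁ hw)
  refine ⟨MonoidHom.mk' (fun x => QuotientGroup.mk' M (c x)) ?_, ?_⟩
  · intro a b
    rw [← map_mul]
    refine QuotientGroup.eq.2 (hM.le ?_)
    rw [mem_M0]
    constructor
    · apply hφ
      exact Subgroup.mul_mem _ (Subgroup.inv_mem _ (hc1 _)) (Subgroup.mul_mem _ (hc1 _) (hc1 _))
    · rw [map_mul, map_inv, map_mul, hc2, hc2, hc2, map_mul, inv_mul_cancel]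
  · rw [injective_iff_map_eq_one]
    intro x hx
    have h1 : c x ∈ M := mk_eq_one.1 hx
    have h2 := P2 hM h1 (hφ _ (hc1 x))
    rw [hc2] at h2
    exact ofP_injective (h2.trans (map_one _).symm)

end Setup

end Pool.Agent.Helper94.CoD
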