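import Mathlib
import Pool.Agent.Helper94.CoD.Crit

set_option autoImplicit false

open scoped commutatorElement

namespace Pool.Agent.Helper94.CoD

open Pool.Agent.Helper77.CD

section Triv

variable {G : Type} [Group G] [Finite G] {p : ℕ} [hp : Fact p.Prime]

/-- A nonabelian finite `p`-group with cyclic centre has a nontrivial central automorphism. -/
theorem exists_central_of_nonabelian (hG : IsPGroup p G) (hZ : IsCyclic (Subgroup.center G))
    (hna : ∃ a b : G, a * b ≠ b * a) :
    ∃ α : G ≃* G, (∀ g, g⁻¹ * α g ∈ Subgroup.center G) ∧ α ≠ MulEquiv.refl G := by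
  have hnt : Nontrivial G := by
    obtain ⟨a, b, hab⟩ := hna
    exact ⟨a * b, b * a, hab⟩
  obtain ⟨z, -, hzZ, hzo⟩ := exists_central_order hG (N := (⊤ : Subgroup G)) top_ne_bot
  obtain ⟨N, hN, -⟩ := (eq_top_or_exists_le_coatom (⊥ : Subgroup G)).resolve_left bot_ne_top
  have hNn := coatom_normal hG hN
  have hcard : Nat.card (G ⧸ N) = p := coatom_card hG hN
  have hcard2 : Nat.card (Subgroup.zpowers z) = p := by rw [Nat.card_zpowers, hzo]
  let e : G ⧸ N ≃* Subgroup.zpowers z := mulEquivOfPrimeCardEq hcard hcard2
  let f : G →* G := (Subgroup.subtype _).comp (e.toMonoidHom.comp (QuotientGroup.mk' N))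
  have hf : ∀ g, f g ∈ Subgroup.center G := fun g =>
    (Subgroup.zpowers_le.2 hzZ) (e (g : G ⧸ N)).2
  have hinj := inj_of_cyclic hG hZ hna f hf
  obtain ⟨x, hx⟩ : ∃ x, x ∉ N := by
    by_contra h
    push Not at h
    exact hN.1 (eq_top_iff.2 fun x _ => h x)
  have hfx : f x ≠ 1 := by
    intro h
    apply hx
    have h1 : e (x : G ⧸ N) = 1 := Subtype.ext h
    exact (QuotientGroup.eq_one_iff x).1 ((MulEquiv.map_eq_one_iff e).1 h1)
  let β : G →* G := MonoidHom.mk' (fun g => g * f g) (by
    intro a b
    have h := Subgroup.mem_center_iff.1 (hf a) b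
    change a * b * f (a * b) = (a * f a) * (b * f b)
    rw [map_mul]
    calc a * b * (f a * f b) = a * (b * f a) * f b := by group
      _ = a * (f a * b) * f b := by rw [h]
      _ = _ := by group)
  have hβ : ∀ g, β g = g * f g := fun g => rfl
  have hi : Function.Injective β := by
    rw [injective_iff_map_eq_one]
    intro g hg
    exact hinj g hg
  refine ⟨MulEquiv.ofBijective β (Finite.injective_iff_bijective.1 hi), fun g => ?_, fun h => ?_⟩
  · change g⁻¹ * β g ∈ Subgroup.center G
    rw [hβ, inv_mul_cancel_left]
    exact hf g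
  · have h1 : β x = x := DFunLike.congr_fun h x
    rw [hβ, mul_eq_left] at h1
    exact hfx h1

/-- The finite `p`-groups without nontrivial central automorphisms. -/
theorem trivial_iff (hG : IsPGroup p G) :
    (∀ α : G ≃* G, (∀ g, g⁻¹ * α g ∈ Subgroup.center G) → α = MulEquiv.refl G) ↔
      Nat.card G ≤ 2 := by
  constructor
  · intro h
    have hco : IsCoDedekindian G := by
      intro α hα U
      rw [h α hα]
      ext x
      constructor
      · rintro ⟨y, hy, rfl⟩
        exact hy
      · intro hx
        exact ⟨x, hx, rfl⟩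
    have hZ := isCyclic_center hG hco
    by_cases hna : ∃ a b : G, a * b ≠ b * a
    · obtain ⟨α, h1, h2⟩ := exists_central_of_nonabelian hG hZ hna
      exact absurd (h α h1) h2
    · push Not at hna
      have hcen : ∀ g : G, g ∈ Subgroup.center G := fun g =>
        Subgroup.mem_center_iff.2 fun h => hna h g
      let β : G →* G := MonoidHom.mk' (fun g => g⁻¹) (by
        intro a b
        rw [mul_inv_rev, hna])
      have hi : Function.Injective β := inv_injective
      have h1 := h (MulEquiv.ofBijective β (Finite.injective_iff_bijective.1 hi))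
        (fun g => hcen _)
      have h2 : ∀ g : G, g⁻¹ = g := fun g => DFunLike.congr_fun h1 g
      have hcyc : IsCyclic G := isCyclic_of_surjective (Subgroup.subtype (Subgroup.center G))
        (fun g => ⟨⟨g, hcen g⟩, rfl⟩)
      obtain ⟨g, hg⟩ := IsCyclic.exists_generator (α := G)
      rw [← orderOf_eq_card_of_forall_mem_zpowers hg]
      apply orderOf_le_of_pow_eq_one (by norm_num)
      rw [pow_two]
      conv_lhs => rw [← h2 g]
      rw [h2 g]
      have := inv_mul_cancel g
      rwa [h2 g] at this
  · intro hcard α _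
    ext g
    change α g = g
    by_contra hne
    have hg1 : g ≠ 1 := by
      rintro rfl
      exact hne (map_one α)
    have hαg1 : α g ≠ 1 := fun h => hg1 ((MulEquiv.map_eq_one_iff α).1 h)
    classical
    have hft : Fintype G := Fintype.ofFinite G
    have h3 : ({1, g, α g} : Finset G).card = 3 :=
      Finset.card_eq_three.2 ⟨1, g, α g, hg1.symm, hαg1.symm, fun h => hne h.symm, rfl⟩
    have h4 := Finset.card_le_univ ({1, g, α g} : Finset G)
    rw [h3, Fintype.card_eq_nat_card] at h4
    omega

end Triv

end Pool.Agent.Helper94.CoD
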