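import Mathlib
import Pool.Agent.Helper77.CDReg
import Pool.Agent.Helper94.CoD.Exists

set_option autoImplicit false

open scoped commutatorElement
open Finset

namespace Pool.Agent.Helper94.CoD

open RegularWreathProduct
open Pool.Agent.Helper77.CD (IsCoDedekindian)

section Basis

variable {p : ℕ} [hp : Fact p.Prime] {K : Type} [Field K] [Algebra (ZMod p) K]

theorem exists_basis_one [Finite K] {I : Type} [Finite I] (i0 : I)
    (h : Module.finrank (ZMod p) K = Nat.card I) :
    ∃ b : Module.Basis I (ZMod p) K, b i0 = 1 := by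
  have hfin : Module.Finite (ZMod p) K := inferInstance
  have hI : Fintype I := Fintype.ofFinite I
  let b0 : Module.Basis I (ZMod p) K := (Module.finBasis (ZMod p) K).reindex
    (Fintype.equivOfCardEq (by rw [Fintype.card_fin, h, Nat.card_eq_fintype_card]))
  have hne : b0 i0 ≠ 0 := b0.ne_zero i0
  let c : K ≃ₗ[ZMod p] K :=
    (LinearEquiv.smulOfNeZero K K (b0 i0)⁻¹ (inv_ne_zero hne)).restrictScalars (ZMod p)
  refine ⟨b0.map c, ?_⟩
  rw [Module.Basis.map_apply]
  change (b0 i0)⁻¹ • b0 i0 = 1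
  rw [smul_eq_mul, inv_mul_cancel₀ hne]

theorem hom_aux {I : Type} (b : Module.Basis I (ZMod p) K) {C : Type} [CommGroup C]
    (hexp : ∀ c : C, c ^ p = 1) (d : I → C) :
    ∃ L : K →+ Additive C, ∀ i, L (b i) = Additive.ofMul (d i) := by
  let _ : Module (ZMod p) (Additive C) := AddCommGroup.zmodModule (n := p) (fun x => hexp x.toMul)
  exact ⟨(b.constr (ZMod p) (fun i => Additive.ofMul (d i))).toAddMonoidHom, fun i =>
    b.constr_basis (ZMod p) _ i⟩

theorem hom_aux2 {I : Type} (b : Module.Basis I (ZMod p) K) {C : Type} [CommGroup C]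
    (hexp : ∀ c : C, c ^ p = 1) (k : FreeGroup I →* C) (ℓ : FreeGroup I → K)
    (hadd : ∀ x y, ℓ (x * y) = ℓ x + ℓ y) (hb : ∀ i, ℓ (FreeGroup.of i) = b i)
    {x : FreeGroup I} (hx : ℓ x = 0) : k x = 1 := by
  obtain ⟨L, hL⟩ := hom_aux b hexp (fun i => k (FreeGroup.of i))
  let k' : FreeGroup I →* C := MonoidHom.mk' (fun x => (L (ℓ x)).toMul) (by
    intro x y
    rw [hadd, map_add, toMul_add])
  have hk : k = k' := by
    apply FreeGroup.ext_hom
    intro i
    change _ = (L (ℓ (FreeGroup.of i))).toMul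
    rw [hb, hL]
    rfl
  rw [hk]
  change (L (ℓ x)).toMul = 1
  rw [hx, map_zero, toMul_zero]

end Basis

section Final

variable (p : ℕ) [hp : Fact p.Prime] (P : Type) [Group P] [Finite P] [Nontrivial P]

theorem exists_good (hP : IsPGroup p P) : ∃ (G : Type) (_ : Group G) (_ : Finite G),
    IsPGroup p G ∧ IsCoDedekindian G ∧
    (∃ α : G ≃* G, (∀ g, g⁻¹ * α g ∈ Subgroup.center G) ∧ α ≠ MulEquiv.refl G) ∧
    (∃ a b : G, a * b ≠ b * a) ∧ Nat.card (Subgroup.center G) = p ∧
    (∃ f : G →* P, Function.Surjective f) ∧ (∃ f : P →* G, Function.Injective f) := by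
  classical
  obtain ⟨e, he⟩ := IsPGroup.iff_card.1 hP
  have he1 : 1 ≤ e := by
    rcases Nat.eq_zero_or_pos e with h0 | h0
    · rw [h0, pow_zero] at he
      have := Finite.one_lt_card (α := P)
      omega
    · exact h0
  set m := e + 4 with hm
  have h16 : 16 * p ^ e ≤ p ^ m := by
    have h1 : 2 ^ 4 ≤ p ^ 4 := Nat.pow_le_pow_left hp.out.two_le 4
    rw [hm, pow_add, mul_comm]
    exact Nat.mul_le_mul le_rfl h1
  have hepe : e < p ^ e := Nat.lt_pow_self hp.out.one_lt
  set r := p ^ m - 1 - 2 * p ^ e with hr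
  have hr1 : r + 1 + 2 * p ^ e = p ^ m := by omega
  let I := Unit ⊕ P ⊕ P ⊕ Fin r
  have hIcard : Nat.card I = p ^ m := by
    simp only [I, Nat.card_sum, Nat.card_fin, Nat.card_unique, he]
    omega
  let K := GaloisField p (p ^ m)
  have hN0 : p ^ m ≠ 0 := pow_ne_zero _ hp.out.ne_zero
  have hKcard : Nat.card K = p ^ (p ^ m) := GaloisField.card p (p ^ m) hN0
  have hKfin : Finite K := Nat.finite_of_card_ne_zero (by
    rw [hKcard]; exact pow_ne_zero _ hp.out.ne_zero)
  have hKft : Fintype K := Fintype.ofFinite K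
  have hrank : Module.finrank (ZMod p) K = Nat.card I := by
    rw [hIcard]; exact GaloisField.finrank p hN0
  obtain ⟨b, hb⟩ := exists_basis_one (p := p) (K := K) (Sum.inl () : I) hrank
  choose g hg using fun i : I => exists_ld_one (p := p) (K := K) (b i)
  let F := FreeGroup I
  let φ₁ : F →* Gr p K := FreeGroup.lift g
  let φ₂ : F →* YY p P r := FreeGroup.lift gY
  have hφ1 : ∀ i, ld 1 (φ₁ (FreeGroup.of i)) = b i := fun i => by
    change ld 1 (FreeGroup.lift g (FreeGroup.of i)) = b i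
    rw [FreeGroup.lift_apply_of, hg]
  have hφ2 : ∀ i, φ₂ (FreeGroup.of i) = gY i := fun i => FreeGroup.lift_apply_of
  have hsurj : Function.Surjective φ₂ := by
    rw [← MonoidHom.range_eq_top, ← top_le_iff, ← closure_gY, Subgroup.closure_le]
    rintro _ ⟨i, rfl⟩
    exact ⟨FreeGroup.of i, hφ2 i⟩
  have hadd : ∀ x y : F, ld 1 (φ₁ (x * y)) = ld 1 (φ₁ x) + ld 1 (φ₁ y) := fun x y => by
    rw [map_mul, ld_mul le_rfl (mem_Gam_one _) (mem_Gam_one _)]
  have hlead : ∀ β : K, ∃ v, ld 1 (φ₁ v) = β := by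
    let A : AddSubgroup K :=
      { carrier := {β | ∃ v, ld 1 (φ₁ v) = β}
        zero_mem' := ⟨1, by rw [map_one, ld_one le_rfl]⟩
        add_mem' := by
          rintro _ _ ⟨v, rfl⟩ ⟨w, rfl⟩
          exact ⟨v * w, hadd v w⟩
        neg_mem' := by
          rintro _ ⟨v, rfl⟩
          exact ⟨v⁻¹, by rw [map_inv, ld_inv le_rfl (mem_Gam_one _)]⟩ }
    have hA : (AddSubgroup.toZModSubmodule p A : Submodule (ZMod p) K) = ⊤ := by
      rw [← top_le_iff, ← b.span_eq, Submodule.span_le]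
      rintro _ ⟨i, rfl⟩
      exact ⟨FreeGroup.of i, hφ1 i⟩
    intro β
    have h1 : β ∈ (AddSubgroup.toZModSubmodule p A : Submodule (ZMod p) K) := by
      rw [hA]; exact Submodule.mem_top
    exact h1
  let S : Setup p K P r F :=
    { m := m
      hK := by rw [Fintype.card_eq_nat_card]; exact hKcard
      hm := by omega
      h5 := by have := Nat.one_le_pow e p hp.out.pos; omega
      φ₁ := φ₁
      φ₂ := φ₂
      surj := hsurj
      lead := hlead
      x0 := FreeGroup.of (Sum.inl ())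
      hx1 := by rw [hφ1, hb]
      hx2 := by rw [hφ2]; rfl
      hpow := pow_YY he (pow_dvd_pow p (by omega))
      hr := by omega
      hP := hP }
  have hom : S.HomProp := by
    intro C hC hcomm hexp k x hx
    let _ : CommGroup C := { hC with mul_comm := hcomm }
    exact hom_aux2 b hexp k (fun x => ld 1 (φ₁ x)) hadd hφ1 hx
  obtain ⟨M, hM⟩ := S.exists_isMax
  have hMn : M.Normal := hM.normal
  have hfin : Finite (F ⧸ M) := Setup.finite_quot hM
  refine ⟨F ⧸ M, inferInstance, hfin, Setup.isPGroup_quot hM, ?_, ?_, Setup.nonabelian hM,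
    Setup.card_center hM, Setup.exists_surj hM, Setup.exists_inj hM ?_⟩
  · intro α hα U
    exact Setup.coDed hM hom α hα U
  · refine Setup.exists_aut hM (b.coord (Sum.inl ())).toAddMonoidHom ?_
    change b.coord (Sum.inl ()) 1 = 1
    rw [← hb, b.coord_apply, b.repr_self, Finsupp.single_eq_same]
  · intro x
    have hN : S.N = p ^ m := rfl
    exact ofP_mem_LC he he1 (by rw [hN]; omega) x

end Final

/-- Universality. -/
theorem universal (p : ℕ) [hp : Fact p.Prime] (H : Type) [Group H] [Finite H]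
    (hH : IsPGroup p H) : ∃ (G : Type) (_ : Group G) (_ : Finite G),
    IsPGroup p G ∧ IsCoDedekindian G ∧
    (∃ α : G ≃* G, (∀ g, g⁻¹ * α g ∈ Subgroup.center G) ∧ α ≠ MulEquiv.refl G) ∧
    (∃ a b : G, a * b ≠ b * a) ∧ Nat.card (Subgroup.center G) = p ∧
    (∃ f : G →* H, Function.Surjective f) ∧ (∃ f : H →* G, Function.Injective f) := by
  have hP : IsPGroup p (H × Multiplicative (ZMod p)) := by
    obtain ⟨a, ha⟩ := IsPGroup.iff_card.1 hH
    obtain ⟨b, hb⟩ := IsPGroup.iff_card.1 (isPGroup_zmod (p := p))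
    refine IsPGroup.of_card (n := a + b) ?_
    rw [Nat.card_prod, ha, hb, pow_add]
  obtain ⟨G, i1, i2, h1, h2, h3, h4, h5, ⟨f, hf⟩, ⟨g, hg⟩⟩ :=
    exists_good p (H × Multiplicative (ZMod p)) hP
  refine ⟨G, i1, i2, h1, h2, h3, h4, h5, ⟨(MonoidHom.fst H _).comp f, ?_⟩,
    ⟨g.comp (MonoidHom.inl H _), ?_⟩⟩
  · exact (Prod.fst_surjective).comp hf
  · refine hg.comp ?_
    intro a b hab
    exact congrArg Prod.fst hab

end Pool.Agent.Helper94.CoD
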